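import Pool.Agent.H81.LW.Main
import Pool.Agent.H66.RL.LogP

/-!
# Log: many separated limit points

If `c ≤ q ‖q α_1‖ ⋯ ‖q α_m‖` for all large `q` then the sequence has at least
`κ (log (1 / ε)) ^ (m + 1 - (m + 1) / p)` limit points in `(0, R]` with distances at least `ε`, where `p` is the
least prime factor of `m + 1` (exponent `2` for `m = 2`), and `κ`, `R` depend only on `c` and `m`.
-/

set_option autoImplicit false

namespace Pool.Agent.H81.LW

open Matrix Filter Topology Pool.Agent.H89.CSD Pool.Agent.H46.RG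

variable {m : ℕ}

private theorem log_cluster_ge {f : ℕ → ℝ} {c v : ℝ} (h : ∀ᶠ q in atTop, c ≤ f q)
    (hv : MapClusterPt v atTop f) : c ≤ v := by
  by_contra hcon
  have h1 : ∃ᶠ q in atTop, f q ∈ Set.Iio c :=
    (mapClusterPt_iff_frequently.1 hv) _ (Iio_mem_nhds (not_le.1 hcon))
  obtain ⟨q, hq1, hq2⟩ := (h1.and_eventually h).exists
  exact absurd hq1 (not_lt.2 hq2)

theorem log_limit_points (hm : 2 ≤ m) {c : ℝ} (hc : 0 < c) :
    ∃ R κ : ℝ, 0 < κ ∧ ∀ α : Fin m → ℝ,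
      (∃ N : ℕ, ∀ q : ℕ, N ≤ q → 0 < q → c ≤ fq α q) →
      ∀ ε : ℝ, 0 < ε → ε < 1 → ∃ T : Finset ℝ,
        κ * Real.log (1 / ε) ^ (m + 1 - (m + 1) / (m + 1).minFac) ≤ T.card ∧
        (∀ v ∈ T, 0 < v ∧ v ≤ R ∧ MapClusterPt v atTop (fq α)) ∧
        ∀ v ∈ T, ∀ v' ∈ T, v ≠ v' → ε ≤ |v - v'| := by
  classical
  obtain ⟨R, κ, hR, hκ, hmain⟩ := Pool.Agent.H66.RL.log_pow (d := m + 1) (by omega) hc
  refine ⟨R, κ / 2, half_pos hκ, ?_⟩
  rintro α ⟨N, hN⟩ ε hε hε1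
  obtain ⟨c', hc', hp⟩ := lpos_of hc hN
  obtain ⟨g, hg, hgn⟩ := exists_nonint hm hc' hp
  have hdet : |g.det| = 1 := hg.abs_det
  have hg0 : g.det ≠ 0 := by
    intro h0
    rw [h0, abs_zero] at hdet
    exact zero_ne_one hdet
  have hcl : ∀ x : Fin (m + 1) → ℤ, x ≠ 0 → MapClusterPt |P g (ic x)| atTop (fq α) :=
    fun x hx => (hg.core (by omega) hc' hp hx).2
  have hev : ∀ᶠ q in atTop, c ≤ fq α q := by
    filter_upwards [eventually_ge_atTop (N + 1)] with q hq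
    exact hN q (by omega) (by omega)
  have hlow : ∀ x : Fin (m + 1) → ℤ, x ≠ 0 → c ≤ |P g (ic x)| :=
    fun x hx => log_cluster_ge hev (hcl x hx)
  obtain ⟨T, hT1, hT2, hT3⟩ := hmain g hg0 (fun x hx => by
    rw [hdet, mul_one]
    exact hlow x hx) hgn ε hε hε1
  rw [hdet] at hT2 hT3
  simp only [mul_one] at hT2 hT3
  have hsplit : (T.filter fun x => 0 < P g (ic x)).card +
      (T.filter fun x => ¬ 0 < P g (ic x)).card = T.card :=
    Finset.card_filter_add_card_filter_not (s := T) (fun x => 0 < P g (ic x))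
  -- a subset on which the sign is constant
  obtain ⟨S, s, hST, hs, hScard, hSs⟩ : ∃ (S : Finset (Fin (m + 1) → ℤ)) (s : ℝ), S ⊆ T ∧
      |s| = 1 ∧ (T.card : ℝ) / 2 ≤ S.card ∧ ∀ x ∈ S, |P g (ic x)| = s * P g (ic x) := by
    have hsum : ((T.filter fun x => 0 < P g (ic x)).card : ℝ) +
        ((T.filter fun x => ¬ 0 < P g (ic x)).card : ℝ) = T.card := by exact_mod_cast hsplit
    rcases le_total ((T.card : ℝ) / 2) ((T.filter fun x => 0 < P g (ic x)).card : ℝ) with h | h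
    · refine ⟨_, 1, Finset.filter_subset _ _, abs_one, h, fun x hx => ?_⟩
      rw [abs_of_pos (Finset.mem_filter.1 hx).2, one_mul]
    · refine ⟨T.filter fun x => ¬ 0 < P g (ic x), -1, Finset.filter_subset _ _, by norm_num,
        by linarith, fun x hx => ?_⟩
      rw [abs_of_nonpos (not_lt.1 (Finset.mem_filter.1 hx).2)]
      ring
  have hdist : ∀ x ∈ S, ∀ y ∈ S, x ≠ y → ε ≤ |(|P g (ic x)|) - (|P g (ic y)|)| := by
    intro x hx y hy hxy
    rw [hSs x hx, hSs y hy, ← mul_sub, abs_mul, hs, one_mul]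
    exact hT3 x (hST hx) y (hST hy) hxy
  have hinj : Set.InjOn (fun x : Fin (m + 1) → ℤ => |P g (ic x)|) (S : Set (Fin (m + 1) → ℤ)) := by
    intro x hx y hy hxy
    by_contra hne
    have h1 := hdist x hx y hy hne
    have h2 : |P g (ic x)| = |P g (ic y)| := hxy
    rw [h2, sub_self, abs_zero] at h1
    linarith
  refine ⟨S.image fun x => |P g (ic x)|, ?_, ?_, ?_⟩
  · rw [Finset.card_image_of_injOn hinj]
    have h1 : κ / 2 * Real.log (1 / ε) ^ (m + 1 - (m + 1) / (m + 1).minFac) =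
        (κ * Real.log (1 / ε) ^ (m + 1 - (m + 1) / (m + 1).minFac)) / 2 := by ring
    rw [h1]
    linarith
  · intro v hv
    obtain ⟨x, hx, rfl⟩ := Finset.mem_image.1 hv
    obtain ⟨hx0, hxR⟩ := hT2 x (hST hx)
    exact ⟨hc.trans_le (hlow x hx0), hxR, hcl x hx0⟩
  · intro v hv v' hv' hne
    obtain ⟨x, hx, rfl⟩ := Finset.mem_image.1 hv
    obtain ⟨y, hy, rfl⟩ := Finset.mem_image.1 hv'
    exact hdist x hx y hy (fun h => hne (by rw [h]))

/-- Two numbers: if `c ≤ q ‖q α‖ ‖q β‖` for all large `q`, then for `0 < ε < 1` the sequence has at least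
`κ (log (1 / ε)) ^ 2` limit points in `(0, R]` with distances at least `ε`. -/
theorem littlewood_log_points {c : ℝ} (hc : 0 < c) :
    ∃ R κ : ℝ, 0 < κ ∧ ∀ α β : ℝ,
      (∃ N : ℕ, ∀ q : ℕ, N ≤ q → 0 < q → c ≤ (q : ℝ) * |(q : ℝ) * α - round ((q : ℝ) * α)| *
        |(q : ℝ) * β - round ((q : ℝ) * β)|) →
      ∀ ε : ℝ, 0 < ε → ε < 1 → ∃ T : Finset ℝ,
        κ * Real.log (1 / ε) ^ 2 ≤ T.card ∧
        (∀ v ∈ T, 0 < v ∧ v ≤ R ∧ MapClusterPt v atTop
          (fun q : ℕ => (q : ℝ) * |(q : ℝ) * α - round ((q : ℝ) * α)| *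
            |(q : ℝ) * β - round ((q : ℝ) * β)|)) ∧
        ∀ v ∈ T, ∀ v' ∈ T, v ≠ v' → ε ≤ |v - v'| := by
  obtain ⟨R, κ, hκ, h⟩ := log_limit_points (m := 2) le_rfl hc
  refine ⟨R, κ, hκ, ?_⟩
  intro α β hN ε hε hε1
  have hf : fq ![α, β] = fun q : ℕ => (q : ℝ) * |(q : ℝ) * α - round ((q : ℝ) * α)| *
      |(q : ℝ) * β - round ((q : ℝ) * β)| := by
    ext q
    simp [fq, Fin.prod_univ_two, mul_assoc]
  have h1 := h ![α, β] (by
    rw [hf]
    exact hN) ε hε hε1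
  rw [hf] at h1
  have h2 : (2 + 1 - (2 + 1) / (2 + 1 : ℕ).minFac) = 2 := by
    have : (2 + 1 : ℕ).minFac = 3 := Nat.Prime.minFac_eq (by norm_num)
    rw [this]
  rw [h2] at h1
  exact h1

end Pool.Agent.H81.LW
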