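import Pool.Agent.H46.RG.Perf

/-!
# Products of distances to the nearest integers (Littlewood's conjecture): definitions

`fq α q = q ‖q α_1‖ ⋯ ‖q α_m‖`.  `LG α` is the matrix of the forms `x_0`, `α_i x_0 - x_i`.
`Deep a`: a sequence of positive diagonal matrices of determinant one whose last `m` entries tend to
infinity.  `LimL α h`: `h` is a limit of `diagonal (a n) * LG α * U n`.
-/

set_option autoImplicit false

namespace Pool.Agent.H81.LW

open Matrix Filter Topology Pool.Agent.H89.CSD Pool.Agent.H46.RG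

variable {m : ℕ}

/-- The product `q ‖q α_1‖ ⋯ ‖q α_m‖`. -/
noncomputable def fq (α : Fin m → ℝ) (q : ℕ) : ℝ :=
  q * ∏ i, |(q : ℝ) * α i - round ((q : ℝ) * α i)|

/-- The matrix of the forms `x_0` and `α_i x_0 - x_i`. -/
def LG (α : Fin m → ℝ) : Matrix (Fin (m + 1)) (Fin (m + 1)) ℝ :=
  Matrix.of fun i j => Fin.cases (if j = 0 then 1 else 0)
    (fun i' => Fin.cases (α i') (fun j' => if i' = j' then -1 else 0) j) i

/-- The product of the forms is at least `c` at the integer points with `x_0 ≠ 0`. -/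
def LPos (c : ℝ) (α : Fin m → ℝ) : Prop :=
  ∀ x : Fin (m + 1) → ℤ, x 0 ≠ 0 → c ≤ |P (LG α) (ic x)|

/-- Positive diagonal matrices of determinant one whose last `m` entries tend to infinity. -/
def Deep (a : ℕ → Fin (m + 1) → ℝ) : Prop :=
  (∀ n, a n ∈ A1 (m + 1)) ∧ ∀ i : Fin m, Tendsto (fun n => a n i.succ) atTop atTop

/-- The limits of `diagonal (a n) * LG α * U n`. -/
def LimL (α : Fin m → ℝ) (h : Matrix (Fin (m + 1)) (Fin (m + 1)) ℝ) : Prop :=
  ∃ (a : ℕ → Fin (m + 1) → ℝ) (U : ℕ → (Matrix (Fin (m + 1)) (Fin (m + 1)) ℤ)ˣ), Deep a ∧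
    Tendsto (fun n => diagonal (a n) * LG α *
      im (U n : Matrix (Fin (m + 1)) (Fin (m + 1)) ℤ)) atTop (𝓝 h)

theorem LG_zero_zero (α : Fin m → ℝ) : LG α 0 0 = 1 := by simp [LG]

theorem LG_zero_succ (α : Fin m → ℝ) (j : Fin m) : LG α 0 j.succ = 0 := by simp [LG]

theorem LG_succ_zero (α : Fin m → ℝ) (i : Fin m) : LG α i.succ 0 = α i := by simp [LG]

theorem LG_succ_succ (α : Fin m → ℝ) (i j : Fin m) :
    LG α i.succ j.succ = if i = j then -1 else 0 := by simp [LG]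

theorem LG_mulVec_zero (α : Fin m → ℝ) (x : Fin (m + 1) → ℝ) : (LG α *ᵥ x) 0 = x 0 := by
  rw [Matrix.mulVec, dotProduct, Fin.sum_univ_succ, LG_zero_zero]
  simp [LG_zero_succ]

theorem LG_mulVec_succ (α : Fin m → ℝ) (x : Fin (m + 1) → ℝ) (i : Fin m) :
    (LG α *ᵥ x) i.succ = α i * x 0 - x i.succ := by
  rw [Matrix.mulVec, dotProduct, Fin.sum_univ_succ, LG_succ_zero]
  simp [LG_succ_succ, sub_eq_add_neg]

theorem P_LG (α : Fin m → ℝ) (x : Fin (m + 1) → ℝ) :
    P (LG α) x = x 0 * ∏ i : Fin m, (α i * x 0 - x i.succ) := by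
  rw [P_eq, Fin.prod_univ_succ, LG_mulVec_zero]
  simp only [LG_mulVec_succ]

theorem abs_det_LG (α : Fin m → ℝ) : |(LG α).det| = 1 := by
  have h : (LG α).BlockTriangular OrderDual.toDual := by
    intro i j hij
    have hij' : i < j := hij
    have hj0 : j ≠ 0 := by
      rintro rfl
      exact absurd hij' (Fin.not_lt_zero i)
    obtain ⟨j', rfl⟩ := Fin.exists_succ_eq_of_ne_zero hj0
    refine Fin.cases (fun _ => LG_zero_succ α j') (fun i' hi => ?_) i hij'
    rw [LG_succ_succ, if_neg]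
    rintro rfl
    exact lt_irrefl _ hi
  rw [Matrix.det_of_isLowerTriangular _ h, Fin.prod_univ_succ, LG_zero_zero]
  simp [LG_succ_succ, abs_pow]

theorem Deep.comp {a : ℕ → Fin (m + 1) → ℝ} (ha : Deep a) {φ : ℕ → ℕ} (hφ : StrictMono φ) :
    Deep fun n => a (φ n) :=
  ⟨fun n => ha.1 (φ n), fun i => (ha.2 i).comp hφ.tendsto_atTop⟩

end Pool.Agent.H81.LW
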