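import Pool.Agent.H81.LW.Def

/-!
# Lalg: two integral forms with a common factor

`d` general.  `w` and `w' = (1 + v) * w` have `HasT`: `w_i T = λ_i w_i`, `w'_i T' = λ'_i w'_i`, `λ, λ'` injective.  Row `k`
of `v` is zero, so `w'_k = w_k`, and the diagonal of `v` is zero.  Then `v = 0`.
(1) `N = T T' - T' T` is an integer matrix with `w_k N = 0` (`vecMul`).  Every column of `N` is zero, because
`(w *ᵥ ic x) k ≠ 0` for integer `x ≠ 0` (`Pos c w`: `P w (ic x)` is the product of the coordinates).  So `T` and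
`T'` commute.
(2) For every `i` the row `w_i T'` is an eigenvector of `T` for `λ_i`; `w` is invertible and `λ` is injective, so
`w_i T' = μ_i w_i` (write `w * im T' = M * w`, then `M` commutes with `diagonal λ`, so `M` is diagonal).
(3) `w'_i = w_i + ∑_j v_ij w_j`, so `μ_i w_i + ∑_j v_ij μ_j w_j = λ'_i (w_i + ∑_j v_ij w_j)`.  The rows of `w` are
linearly independent: `μ_i = λ'_i` (coefficient of `w_i`, `v_ii = 0`) and `v_ij μ_j = λ'_i v_ij`.  If `v_ij ≠ 0` then
`λ'_j = μ_j = λ'_i`, `j = i`, but `v_ii = 0`.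
In matrices: `W = w`, `im T * w⁻¹ ...`: with `A = w * im T * w⁻¹ = diagonal λ`, `M = w * im T' * w⁻¹ = diagonal μ`,
`(1 + v) * M = diagonal λ' * (1 + v)`.
-/

set_option autoImplicit false

namespace Pool.Agent.H81.LW

open Matrix Filter Topology Pool.Agent.H89.CSD Pool.Agent.H46.RG

variable {m : ℕ}

theorem rows_eq {d : ℕ} {c : ℝ} (hc : 0 < c) {w v : Matrix (Fin d) (Fin d) ℝ} (hp : Pos c w)
    (hdet : w.det ≠ 0) (hw : HasT w) (hw' : HasT ((1 + v) * w)) (k : Fin d)
    (hv0 : ∀ j, v k j = 0) (hvd : ∀ i, v i i = 0) : v = 0 := by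
  obtain ⟨T, lam, hlam, hT⟩ := hw
  obtain ⟨T', lam', hlam', hT'⟩ := hw'
  have hunit : IsUnit w.det := isUnit_iff_ne_zero.2 hdet
  have hA : w * im T = diagonal lam * w := eigen_mat hT
  have hB : (1 + v) * w * im T' = diagonal lam' * ((1 + v) * w) := eigen_mat hT'
  have hrow : ((1 + v) * w) k = w k := by
    ext j
    rw [Matrix.add_mul, Matrix.one_mul, Matrix.add_apply, Matrix.mul_apply]
    simp [hv0]
  -- the matrices commute
  have hcomm : T * T' = T' * T := by
    have hN : vecMul (w k) (im (T * T' - T' * T)) = 0 := by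
      have e1 : im (T * T' - T' * T) = im T * im T' - im T' * im T := by
        rw [← im_mul, ← im_mul]
        ext i j
        simp [im]
      have e2 : vecMul (w k) (im T') = lam' k • w k := by
        have := hT' k
        rwa [hrow] at this
      rw [e1, Matrix.vecMul_sub, ← Matrix.vecMul_vecMul, ← Matrix.vecMul_vecMul, hT k, e2,
        Matrix.smul_vecMul, Matrix.smul_vecMul, hT k, e2, smul_smul, smul_smul,
        mul_comm (lam k), sub_self]
    have hz : ∀ y : Fin d → ℤ, (T * T' - T' * T) *ᵥ y = 0 := by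
      intro y
      by_contra hne
      have h1 := hp _ hne
      have h2 : P w (ic ((T * T' - T' * T) *ᵥ y)) = 0 := by
        rw [P_eq]
        apply Finset.prod_eq_zero (Finset.mem_univ k)
        rw [← im_mulVec]
        have h3 : (w *ᵥ (im (T * T' - T' * T) *ᵥ ic y)) k =
            vecMul (w k) (im (T * T' - T' * T)) ⬝ᵥ ic y := by
          rw [Matrix.mulVec, ← Matrix.dotProduct_mulVec]
        rw [h3, hN, zero_dotProduct]
      rw [h2, abs_zero] at h1
      linarith
    have hN0 : T * T' - T' * T = 0 := by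
      ext i j
      have h4 := congrFun (hz (Pi.single j 1)) i
      rw [Matrix.mulVec_single_one] at h4
      exact h4
    exact sub_eq_zero.1 hN0
  set M : Matrix (Fin d) (Fin d) ℝ := w * im T' * w⁻¹ with hM
  have hMw : M * w = w * im T' := by
    rw [hM, Matrix.mul_assoc, Matrix.nonsing_inv_mul _ hunit, Matrix.mul_one]
  have hcancel : ∀ X Y : Matrix (Fin d) (Fin d) ℝ, X * w = Y * w → X = Y := by
    intro X Y h
    have := congrArg (fun Z => Z * w⁻¹) h
    simp only [Matrix.mul_assoc] at this
    rwa [Matrix.mul_nonsing_inv _ hunit, Matrix.mul_one, Matrix.mul_one] at this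
  have hMd : M * diagonal lam = diagonal lam * M := by
    apply hcancel
    rw [Matrix.mul_assoc, ← hA, ← Matrix.mul_assoc, hMw, Matrix.mul_assoc, ← im_mul, ← hcomm,
      im_mul, ← Matrix.mul_assoc, hA, Matrix.mul_assoc, Matrix.mul_assoc, hMw]
  have hMoff : ∀ i j, i ≠ j → M i j = 0 := by
    intro i j hij
    have h1 := congrFun (congrFun hMd i) j
    rw [Matrix.mul_diagonal, Matrix.diagonal_mul] at h1
    have h2 : M i j * (lam j - lam i) = 0 := by
      rw [mul_sub, h1]
      ring
    rcases mul_eq_zero.1 h2 with h3 | h3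
    · exact h3
    · exact absurd (hlam (sub_eq_zero.1 h3)) (Ne.symm hij)
  have hE : (1 + v) * M = diagonal lam' * (1 + v) := by
    apply hcancel
    rw [Matrix.mul_assoc, hMw, ← Matrix.mul_assoc, hB, Matrix.mul_assoc]
  have hentry : ∀ i j, (1 + v) i j * M j j = lam' i * (1 + v) i j := by
    intro i j
    have h1 := congrFun (congrFun hE i) j
    rw [Matrix.diagonal_mul, Matrix.mul_apply, Finset.sum_eq_single j] at h1
    · exact h1
    · intro l _ hl
      rw [hMoff l j hl, mul_zero]
    · intro h
      exact absurd (Finset.mem_univ j) h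
  have hMd' : ∀ i, M i i = lam' i := by
    intro i
    have h1 := hentry i i
    rwa [Matrix.add_apply, hvd, Matrix.one_apply_eq, add_zero, one_mul, mul_one] at h1
  ext i j
  rw [Matrix.zero_apply]
  by_cases hij : i = j
  · subst hij
    exact hvd i
  · have h1 := hentry i j
    rw [Matrix.add_apply, Matrix.one_apply_ne hij, zero_add, hMd' j] at h1
    have h2 : v i j * (lam' j - lam' i) = 0 := by
      rw [mul_sub, h1]
      ring
    rcases mul_eq_zero.1 h2 with h3 | h3
    · exact h3
    · exact absurd (hlam' (sub_eq_zero.1 h3)) (Ne.symm hij)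

end Pool.Agent.H81.LW
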