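import Pool.Agent.H81.LW.Def

/-!
# Lexi: compactness for deep sequences

Let `LPos c α`, `Deep a`.  (1) Eventually all `a n i.succ ≥ 1` (`Filter.eventually_all`).  For such `n` and an integer
`x ≠ 0` some coordinate of `(diagonal (a n) * LG α) *ᵥ ic x` is `≥ min c 1` in absolute value: if `x 0 ≠ 0` then
`|P (diagonal (a n) * LG α) (ic x)| = |P (LG α) (ic x)| ≥ c` (`P_diag_mul`, `∏ a n = 1`), and if all coordinates
were `< min c 1` then the product would be `< c` (it is `< min c 1` because one factor is `< min c 1` and the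
others are `≤ 1`; see the proof of `Pos.short` in `H89.CSD.Basic`); if `x 0 = 0` then some `x i.succ ≠ 0` and the
coordinate `i.succ` is `- a n i.succ * x i.succ`, of absolute value `≥ 1` (`LG_mulVec_succ`).
(2) `mahler (m + 1) (min c 1) 1 1` gives `R` and for these `n` units `U n` with the entries of
`diagonal (a n) * LG α * im (U n)` in `[-R, R]` (determinant `±1`: `abs_det_LG`, `abs_det_im_unit`, `A1`).  Use the
compact set `KK (m + 1) R 1 1` (`isCompact_KK`) and `IsCompact.tendsto_subseq'` or shift the sequence first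
(`eventually_atTop`), and conclude as in `H46.RG.subseq`.
-/

set_option autoImplicit false

namespace Pool.Agent.H81.LW

open Matrix Filter Topology Pool.Agent.H89.CSD Pool.Agent.H46.RG

variable {m : ℕ}

private theorem short_deep {α : Fin m → ℝ} {c : ℝ} (hp : LPos c α) {a : Fin (m + 1) → ℝ}
    (ha : a ∈ A1 (m + 1)) (ha1 : ∀ i : Fin m, 1 ≤ a i.succ) (x : Fin (m + 1) → ℤ) (hx : x ≠ 0) :
    ∃ i, min c 1 ≤ |((diagonal a * LG α) *ᵥ ic x) i| := by
  by_cases hx0 : x 0 = 0
  · obtain ⟨i, hi⟩ : ∃ i : Fin m, x i.succ ≠ 0 := by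
      by_contra hcon
      push Not at hcon
      apply hx
      ext i
      refine Fin.cases ?_ (fun i => ?_) i
      · rw [hx0]
        rfl
      · rw [hcon i]
        rfl
    refine ⟨i.succ, (min_le_right _ _).trans ?_⟩
    rw [← Matrix.mulVec_mulVec, Matrix.mulVec_diagonal, LG_mulVec_succ]
    have h0 : ic x 0 = 0 := by
      unfold ic
      rw [hx0, Int.cast_zero]
    rw [h0, mul_zero, zero_sub, abs_mul, abs_neg, abs_of_pos (ha.1 _)]
    have h1 : 1 ≤ |ic x i.succ| := by
      unfold ic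
      rw [← Int.cast_abs]
      exact_mod_cast Int.one_le_abs hi
    calc (1 : ℝ) = 1 * 1 := (one_mul 1).symm
      _ ≤ a i.succ * |ic x i.succ| := mul_le_mul (ha1 i) h1 zero_le_one (ha.1 _).le
  · by_contra hcon
    push Not at hcon
    have h1 := hp x hx0
    have h0 : P (diagonal a * LG α) (ic x) = P (LG α) (ic x) := by
      rw [P_diag_mul, ha.2, one_mul]
    rw [← h0, P_eq, Finset.abs_prod] at h1
    have h2 : ∏ i, |((diagonal a * LG α) *ᵥ ic x) i| < min c 1 := by
      have h3 : ∏ i, |((diagonal a * LG α) *ᵥ ic x) i| ≤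
          |((diagonal a * LG α) *ᵥ ic x) 0| := by
        rw [← Finset.mul_prod_erase _ _ (Finset.mem_univ (0 : Fin (m + 1)))]
        have h4 : ∏ i ∈ Finset.univ.erase (0 : Fin (m + 1)),
            |((diagonal a * LG α) *ᵥ ic x) i| ≤ 1 :=
          Finset.prod_le_one (fun _ _ => abs_nonneg _) fun i _ =>
            ((hcon i).trans_le (min_le_right _ _)).le
        exact mul_le_of_le_one_right (abs_nonneg _) h4
      exact h3.trans_lt (hcon 0)
    exact absurd (h1.trans_lt (h2.trans_le (min_le_left _ _))) (lt_irrefl _)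

theorem exists_lim {α : Fin m → ℝ} {c : ℝ} (hc : 0 < c) (hp : LPos c α)
    {a : ℕ → Fin (m + 1) → ℝ} (ha : Deep a) :
    ∃ (φ : ℕ → ℕ) (U : ℕ → (Matrix (Fin (m + 1)) (Fin (m + 1)) ℤ)ˣ)
      (h : Matrix (Fin (m + 1)) (Fin (m + 1)) ℝ), StrictMono φ ∧
      Tendsto (fun n => diagonal (a (φ n)) * LG α *
        im (U n : Matrix (Fin (m + 1)) (Fin (m + 1)) ℤ)) atTop (𝓝 h) := by
  have hev : ∀ᶠ n in atTop, ∀ i : Fin m, 1 ≤ a n i.succ :=
    eventually_all.2 fun i => (ha.2 i).eventually_ge_atTop 1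
  obtain ⟨N, hN⟩ := eventually_atTop.1 hev
  obtain ⟨R, hR0, hR⟩ := mahler (m + 1) (min c 1) 1 1 (lt_min hc one_pos) one_pos zero_le_one
  have hdet : ∀ n, |(diagonal (a n) * LG α).det| = 1 := by
    intro n
    rw [Matrix.det_mul, Matrix.det_diagonal, (ha.1 n).2, one_mul, abs_det_LG]
  choose U hU using fun n => hR (diagonal (a (n + N)) * LG α) (hdet _).ge (hdet _).le
    (short_deep hp (ha.1 _) (hN (n + N) (Nat.le_add_left _ _)))
  have hK : ∀ n, diagonal (a (n + N)) * LG α *
      im (U n : Matrix (Fin (m + 1)) (Fin (m + 1)) ℤ) ∈ KK (m + 1) R 1 1 := by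
    intro n
    have h1 : |(diagonal (a (n + N)) * LG α *
        im (U n : Matrix (Fin (m + 1)) (Fin (m + 1)) ℤ)).det| = 1 := by
      rw [Matrix.det_mul (diagonal (a (n + N)) * LG α), abs_mul, hdet, abs_det_im_unit, one_mul]
    exact ⟨hU n, h1.ge, h1.le⟩
  obtain ⟨w, hw, φ, hφ, hlim⟩ := (isCompact_KK R 1 1).tendsto_subseq hK
  refine ⟨fun n => φ n + N, fun n => U (φ n), w, ?_, hlim⟩
  intro i j hij
  exact Nat.add_lt_add_right (hφ hij) N

/-- There are deep sequences, hence limits. -/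
theorem exists_limL {α : Fin m → ℝ} {c : ℝ} (hc : 0 < c) (hp : LPos c α) :
    ∃ h : Matrix (Fin (m + 1)) (Fin (m + 1)) ℝ, LimL α h := by
  obtain ⟨a, ha⟩ : ∃ a : ℕ → Fin (m + 1) → ℝ, a = fun n : ℕ =>
      Fin.cons (α := fun _ => ℝ) (((n : ℝ) + 1) ^ m)⁻¹ (fun _ : Fin m => (n : ℝ) + 1) := ⟨_, rfl⟩
  have ha0 : ∀ n, a n 0 = (((n : ℝ) + 1) ^ m)⁻¹ := by
    intro n
    rw [ha]
    rfl
  have has : ∀ n (i : Fin m), a n i.succ = (n : ℝ) + 1 := by
    intro n i
    rw [ha]
    rfl
  have hD : Deep a := by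
    refine ⟨fun n => ⟨fun i => ?_, ?_⟩, fun i => ?_⟩
    · refine Fin.cases ?_ (fun i => ?_) i
      · rw [ha0]
        positivity
      · rw [has]
        positivity
    · rw [Fin.prod_univ_succ, ha0]
      simp only [has]
      rw [Finset.prod_const, Finset.card_univ, Fintype.card_fin]
      exact inv_mul_cancel₀ (by positivity)
    · simp only [has]
      exact tendsto_atTop_add_const_right _ _ tendsto_natCast_atTop_atTop
  obtain ⟨φ, U, h, hφ, hlim⟩ := exists_lim hc hp hD
  exact ⟨h, fun n => a (φ n), U, hD.comp hφ, hlim⟩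

end Pool.Agent.H81.LW
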