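import Pool.Agent.H81.LW.Lnon

/-!
# Lfin: the theorem on products of distances to the nearest integers

If the first alternative fails there are `ε > 0`, `N` with `ε ≤ fq α q` for all `q ≥ N`, `q > 0`; `lpos_of` gives
`c > 0` with `LPos c α`; `exists_nonint` gives `h`, `LimL α h`, `¬ IntForm h`; `|det h| = 1`, `Pos c h`.
`values_perfect` (with `d = m + 1 ≥ 3`, `g = h`) gives a perfect nonempty `K₀ ⊆ Icc (-C) C` contained in the closure of the
values `P h (ic x)`, `x ≠ 0`.  All these values have absolute value `≥ c`, so `K₀ ⊆ {v | c ≤ |v|}` (closed).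
One of `K₀ ∩ Ici 0`, `K₀ ∩ Iic 0` is nonempty; they are `K₀ ∩ Ioi 0` and `K₀ ∩ Iio 0`, so closed and relatively open in
`K₀`, so perfect (`Preperfect.open_inter`).  `K` = the first or the image of the second under `v ↦ -v`
(`Homeomorph.neg`; or prove accumulation directly).  Every `v` in `K` is `|v₀|` for some
`v₀ ∈ K₀`, a limit of values `P h (ic x)`, so a limit of cluster points `|P h (ic x)|` (`LimL.core`); the set of cluster
points `{v | MapClusterPt v atTop (fq α)}` is closed (`isClosed_setOf_clusterPt`).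
-/

set_option autoImplicit false

namespace Pool.Agent.H81.LW

open Matrix Filter Topology Pool.Agent.H89.CSD Pool.Agent.H46.RG

variable {m : ℕ}

theorem perfect_limit_points (hm : 2 ≤ m) (α : Fin m → ℝ) (C : ℝ)
    (hC : ∀ h : Matrix (Fin (m + 1)) (Fin (m + 1)) ℝ, h.det ≠ 0 →
      ∃ x : Fin (m + 1) → ℤ, x ≠ 0 ∧ |P h (ic x)| < C * |h.det|) :
    (∀ ε : ℝ, 0 < ε → ∀ N : ℕ, ∃ q : ℕ, N ≤ q ∧ 0 < q ∧ fq α q < ε) ∨
      ∃ K : Set ℝ, Perfect K ∧ K.Nonempty ∧ K ⊆ Set.Ioc 0 C ∧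
        ∀ v ∈ K, MapClusterPt v atTop (fq α) := by
  by_cases hfirst : ∀ ε : ℝ, 0 < ε → ∀ N : ℕ, ∃ q : ℕ, N ≤ q ∧ 0 < q ∧ fq α q < ε
  · exact Or.inl hfirst
  right
  push Not at hfirst
  obtain ⟨ε, hε, N, hN⟩ := hfirst
  obtain ⟨c, hc, hp⟩ := lpos_of hε hN
  obtain ⟨h, hL, hn⟩ := exists_nonint hm hc hp
  have hdet1 : |h.det| = 1 := hL.abs_det
  have hdet : h.det ≠ 0 := by
    intro h0
    rw [h0, abs_zero] at hdet1
    exact zero_ne_one hdet1
  have hm1 : 1 ≤ m := by omega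
  have hPos : Pos c h := hL.pos hm1 hc hp
  obtain ⟨K₀, hK₀, hne, hsub, hIcc⟩ := values_perfect (by omega) hdet hc hPos hn C hC
  have hF : ∀ v ∈ K₀, c ≤ |v| ∧ MapClusterPt |v| atTop (fq α) := by
    have hcl : IsClosed {v : ℝ | c ≤ |v| ∧ MapClusterPt |v| atTop (fq α)} := by
      apply IsClosed.inter
      · exact isClosed_le continuous_const continuous_abs
      · have h1 : IsClosed {v : ℝ | MapClusterPt v atTop (fq α)} := isClosed_setOfPred_clusterPt
        exact h1.preimage continuous_abs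
    intro v hv
    refine closure_minimal ?_ hcl (hsub hv)
    rintro _ ⟨x, hx, rfl⟩
    exact hL.core hm1 hc hp hx
  obtain ⟨v₀, hv₀⟩ := hne
  obtain ⟨s, hs, hsv⟩ : ∃ s : ℝ, (s = 1 ∨ s = -1) ∧ 0 < s * v₀ := by
    have h1 := (hF v₀ hv₀).1
    rcases lt_trichotomy v₀ 0 with h2 | h2 | h2
    · exact ⟨-1, Or.inr rfl, by linarith⟩
    · rw [h2, abs_zero] at h1
      linarith
    · exact ⟨1, Or.inl rfl, by linarith⟩
  have hss : ∀ v : ℝ, s * (s * v) = v := by
    intro v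
    rcases hs with rfl | rfl <;> ring
  have habs : ∀ v : ℝ, |s * v| = |v| := by
    intro v
    rcases hs with rfl | rfl
    · rw [one_mul]
    · rw [neg_one_mul, abs_neg]
  have hcont : Continuous fun v : ℝ => s * v := continuous_const.mul continuous_id
  refine ⟨{v | s * v ∈ K₀ ∧ 0 < v}, ⟨?_, ?_⟩, ⟨s * v₀, ?_, hsv⟩, ?_, ?_⟩
  · have h1 : {v : ℝ | s * v ∈ K₀ ∧ 0 < v} = {v : ℝ | s * v ∈ K₀} ∩ {v | 0 ≤ v} := by
      ext v
      constructor
      · rintro ⟨h1, h2⟩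
        exact ⟨h1, le_of_lt h2⟩
      · rintro ⟨h1, h2⟩
        refine ⟨h1, lt_of_le_of_ne h2 ?_⟩
        rintro rfl
        have h3 := (hF _ h1).1
        rw [mul_zero, abs_zero] at h3
        linarith
    rw [h1]
    exact (hK₀.closed.preimage hcont).inter (isClosed_le continuous_const continuous_id)
  · rintro v ⟨hv1, hv2⟩
    rw [accPt_iff_nhds]
    intro W hW
    have h1 := accPt_iff_nhds.1 (hK₀.acc _ hv1)
    have h2 : {y : ℝ | s * y ∈ W ∧ 0 < s * y} ∈ 𝓝 (s * v) := by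
      have h3 : W ∩ Set.Ioi 0 ∈ 𝓝 (s * (s * v)) := by
        rw [hss]
        exact inter_mem hW (Ioi_mem_nhds hv2)
      exact hcont.continuousAt h3
    obtain ⟨y, ⟨⟨hy1, hy2⟩, hy3⟩, hy4⟩ := h1 _ h2
    refine ⟨s * y, ⟨hy1, ?_, hy2⟩, ?_⟩
    · rw [hss]
      exact hy3
    · intro h5
      apply hy4
      rw [← h5, hss]
  · show s * (s * v₀) ∈ K₀
    rw [hss]
    exact hv₀
  · rintro v ⟨hv1, hv2⟩
    refine ⟨hv2, ?_⟩
    have h1 := hIcc hv1
    rw [hdet1, mul_one] at h1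
    have h2 : |s * v| ≤ C := abs_le.2 h1
    rw [habs, abs_of_pos hv2] at h2
    exact h2
  · rintro v ⟨hv1, hv2⟩
    have h1 := (hF _ hv1).2
    rw [habs, abs_of_pos hv2] at h1
    exact h1

end Pool.Agent.H81.LW
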