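import Pool.Agent.H81.LW.Def

/-!
# Lint: limits of the orbit of an integral form

`y n = diagonal (b n) * h₀ * im (V n) → h'`, `b n ∈ A1`, `h₀` with `HasT` and `Pos c`.  `Pos c h'`: `Pos.of_tendsto`,
`Pos.diag_mul`, `Pos.mul_im`.  `|det (y n)| = |det h₀|`, so `|det h'| = |det h₀| ≠ 0` (`continuous_det'`).
`HasT.intForm` and `IntForm.values` give `κ ≠ 0` with `κ P h₀ (ic x)` an integer for every integer `x`; so
`κ P (y n) (ic x)` is an integer (`P_diag_mul`, `P_mul_im`, `∏ b n = 1`), and `eventually_P_eq` gives an `n` with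
`P (y n) x = P h' x` for all real `x`.  `y n` has `HasT` (`hasT_act`), so `IntForm (y n)`; the polynomials `Fp (y n)`
and `Fp h'` have the same values, hence are equal (`MvPolynomial.funext`, `eval_Fp`), so `IntForm h'`, and
`hasT_of_intForm` gives `HasT h'`.
-/

set_option autoImplicit false

namespace Pool.Agent.H81.LW

open Matrix Filter Topology Pool.Agent.H89.CSD Pool.Agent.H46.RG

variable {m : ℕ}

private theorem lint_det (V : (Matrix (Fin m) (Fin m) ℤ)ˣ) :
    |(im (V : Matrix (Fin m) (Fin m) ℤ)).det| = 1 ∧ (V : Matrix (Fin m) (Fin m) ℤ).det ≠ 0 := by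
  have h1 : IsUnit (V : Matrix (Fin m) (Fin m) ℤ).det :=
    (Matrix.isUnit_iff_isUnit_det _).1 V.isUnit
  have h2 : (im (V : Matrix (Fin m) (Fin m) ℤ)).det =
      (((V : Matrix (Fin m) (Fin m) ℤ).det : ℤ) : ℝ) := by
    have := (RingHom.map_det (Int.castRingHom ℝ) (V : Matrix (Fin m) (Fin m) ℤ)).symm
    simpa [im] using this
  refine ⟨?_, h1.ne_zero⟩
  rw [h2]
  rcases Int.isUnit_iff.1 h1 with h | h <;> rw [h] <;> simp

theorem hasT_lim {d : ℕ} {h₀ h' : Matrix (Fin d) (Fin d) ℝ} (hdet : h₀.det ≠ 0) {c : ℝ}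
    (hc : 0 < c) (hp : Pos c h₀) (hT : HasT h₀) {b : ℕ → Fin d → ℝ}
    {V : ℕ → (Matrix (Fin d) (Fin d) ℤ)ˣ} (hb : ∀ n, b n ∈ A1 d)
    (hlim : Tendsto (fun n => diagonal (b n) * h₀ * im (V n : Matrix (Fin d) (Fin d) ℤ)) atTop
      (𝓝 h')) : Pos c h' ∧ h'.det ≠ 0 ∧ HasT h' := by
  obtain ⟨y, hy⟩ : ∃ y : ℕ → Matrix (Fin d) (Fin d) ℝ, ∀ n, y n =
      diagonal (b n) * h₀ * im (V n : Matrix (Fin d) (Fin d) ℤ) := ⟨_, fun n => rfl⟩
  have hlim' : Tendsto y atTop (𝓝 h') := by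
    refine hlim.congr fun n => (hy n).symm
  have hprod : ∀ n, ∏ i, b n i = 1 := fun n => (hb n).2
  have hposy : ∀ n, Pos c (y n) := by
    intro n
    rw [hy]
    refine Pos.mul_im (Pos.diag_mul hp ?_) (lint_det (V n)).2
    rw [hprod n, abs_one]
  have hpos : Pos c h' := Pos.of_tendsto hlim' hposy
  have hydet : ∀ n, |(y n).det| = |h₀.det| := by
    intro n
    rw [hy, Matrix.det_mul, Matrix.det_mul, Matrix.det_diagonal, hprod n, one_mul, abs_mul,
      (lint_det (V n)).1, mul_one]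
  have hdet' : |h'.det| = |h₀.det| := by
    have h1 : Tendsto (fun n => |(y n).det|) atTop (𝓝 |h'.det|) :=
      ((continuous_det'.tendsto h').comp hlim').abs
    have h2 : Tendsto (fun n => |(y n).det|) atTop (𝓝 |h₀.det|) := by
      simp only [hydet]
      exact tendsto_const_nhds
    exact tendsto_nhds_unique h1 h2
  have hdetne : h'.det ≠ 0 := by
    intro h0
    rw [h0, abs_zero] at hdet'
    exact hdet (abs_eq_zero.1 hdet'.symm)
  obtain ⟨κ, hκ, hval⟩ := (hT.intForm hdet).values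
  have hz : ∀ n (x : Fin d → ℤ), ∃ z : ℤ, κ * P (y n) (ic x) = z := by
    intro n x
    obtain ⟨z, hz⟩ := hval ((V n : Matrix (Fin d) (Fin d) ℤ) *ᵥ x)
    refine ⟨z, ?_⟩
    rw [hy, P_mul_im, P_diag_mul, hprod n, one_mul, hz]
  obtain ⟨n, hn⟩ := (eventually_P_eq hκ hlim' hz).exists
  have hyT : HasT (y n) := by
    rw [hy]
    obtain ⟨T, lam, hlam, hT1⟩ := hT
    exact ⟨_, lam, hlam, eigen_transport hT1 (b n) (V n)⟩
  have hyd : (y n).det ≠ 0 := by
    intro h0
    have h1 := hydet n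
    rw [h0, abs_zero] at h1
    exact hdet (abs_eq_zero.1 h1.symm)
  have hF : Fp (y n) = Fp h' := by
    apply MvPolynomial.funext
    intro x
    rw [eval_Fp, eval_Fp, hn x]
  have hint : IntForm h' := by
    obtain ⟨c', hc', h⟩ := hyT.intForm hyd
    refine ⟨c', hc', fun m => ?_⟩
    have h1 : ∃ z : ℤ, MvPolynomial.coeff m (c' • Fp (y n)) = (z : ℝ) := h m
    rw [hF] at h1
    exact h1
  exact ⟨hpos, hdetne, hasT_of_intForm hc hdetne hpos hint⟩

end Pool.Agent.H81.LW
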