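import Pool.Agent.H81.LW.Lpos

/-!
# Llim: the values of a limit are limit points of `fq α`

`LimL.det`: the determinants of `diagonal (a n) * LG α * im (U n)` are `±1` (`A1`, `abs_det_LG`,
`abs_det_im_unit`); the determinant is continuous.

`LimL.core`: let `x ≠ 0`, `y n = U n *ᵥ x` (integer vector, `≠ 0` by `mulVec_ne`, `det_unit_ne`) and
`v n = (diagonal (a n) * LG α) *ᵥ ic (y n) → v = h *ᵥ ic x`.  Coordinates: `v n 0 = a n 0 * y n 0`,
`v n i.succ = a n i.succ * (α i * y n 0 - y n i.succ)`.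
(1) Eventually `y n 0 ≠ 0`: all `v n i.succ` are bounded (convergent), so eventually
`|v n i.succ| < a n i.succ` for all `i`; if `y n 0 = 0` then `y n i.succ ≠ 0` for some `i` and
`|v n i.succ| = a n i.succ |y n i.succ| ≥ a n i.succ`.
(2) So `c ≤ |P (LG α) (ic (y n))| = |P (diagonal (a n) * LG α * im (U n)) (ic x)|` eventually, and in the limit
`c ≤ |P h (ic x)|`.
(3) `a n 0 → 0` (`a n 0 * ∏ a n i.succ = 1` and `m ≥ 1`; eventually all `a n i.succ ≥ 1`, so
`a n 0 ≤ 1 / a n (succ i₀)`), `v 0 ≠ 0` (because `P h (ic x) ≠ 0`), so `|y n 0| = |v n 0| / a n 0 → ∞`.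
(4) `|α i * y n 0 - y n i.succ| = |v n i.succ| / a n i.succ → 0`, so eventually it is `< 1 / 2`; then it is
equal to `|q α_i - round (q α_i)|` for `q = (y n 0).natAbs` (if `|q α_i - z| < 1 / 2`, `z` an integer, then
`round (q α_i) = z`: `round_eq`, or `le_dist` and uniqueness).  So eventually
`|P (LG α) (ic (y n))| = fq α (y n 0).natAbs`, and this tends to `|P h (ic x)|` while `(y n 0).natAbs → ∞`
(`Tendsto.mapClusterPt`, `MapClusterPt.of_comp`).
-/

set_option autoImplicit false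

namespace Pool.Agent.H81.LW

open Matrix Filter Topology Pool.Agent.H89.CSD Pool.Agent.H46.RG

variable {m : ℕ}

private theorem round_of_lt {y : ℝ} {z : ℤ} (h : |y - z| < 1 / 2) : round y = z := by
  have h1 := abs_sub_round y
  have h2 : |((round y - z : ℤ) : ℝ)| < 1 := by
    push_cast
    have h3 : (round y : ℝ) - z = (y - z) - (y - round y) := by ring
    rw [h3]
    exact (abs_sub _ _).trans_lt (by linarith)
  rw [← Int.cast_abs] at h2
  have h4 : |round y - z| < 1 := by exact_mod_cast h2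
  exact sub_eq_zero.1 (Int.abs_lt_one_iff.1 h4)

private theorem dist_nat {β : ℝ} {k z : ℤ} (h : |β * k - z| < 1 / 2) :
    |β * k - z| = |(k.natAbs : ℝ) * β - round ((k.natAbs : ℝ) * β)| := by
  have h0 : (k.natAbs : ℝ) = |(k : ℝ)| := by
    rw [Nat.cast_natAbs, Int.cast_abs]
  rcases le_total 0 (k : ℝ) with hk | hk
  · rw [h0, abs_of_nonneg hk, mul_comm (k : ℝ) β, round_of_lt h]
  · rw [h0, abs_of_nonpos hk]
    have h1 : -(k : ℝ) * β - ((-z : ℤ) : ℝ) = -(β * k - z) := by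
      push_cast
      ring
    have h2 : |-(k : ℝ) * β - ((-z : ℤ) : ℝ)| < 1 / 2 := by
      rw [h1, abs_neg]
      exact h
    rw [round_of_lt h2, h1, abs_neg]

theorem LimL.abs_det {α : Fin m → ℝ} {h : Matrix (Fin (m + 1)) (Fin (m + 1)) ℝ}
    (hh : LimL α h) : |h.det| = 1 := by
  obtain ⟨a, U, hD, hlim⟩ := hh
  have hcl : IsClosed {M : Matrix (Fin (m + 1)) (Fin (m + 1)) ℝ | |M.det| = 1} :=
    isClosed_eq continuous_det'.abs continuous_const
  refine hcl.mem_of_tendsto hlim (Eventually.of_forall fun n => ?_)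
  rw [Set.mem_ofPred_eq, Matrix.det_mul (diagonal (a n) * LG α), Matrix.det_mul,
    Matrix.det_diagonal, (hD.1 n).2, one_mul, abs_mul, abs_det_LG, abs_det_im_unit, one_mul]

theorem LimL.core (hm : 1 ≤ m) {α : Fin m → ℝ} {c : ℝ} (hc : 0 < c) (hp : LPos c α)
    {h : Matrix (Fin (m + 1)) (Fin (m + 1)) ℝ} (hh : LimL α h) {x : Fin (m + 1) → ℤ}
    (hx : x ≠ 0) : c ≤ |P h (ic x)| ∧ MapClusterPt |P h (ic x)| atTop (fq α) := by
  obtain ⟨a, U, hD, hlim⟩ := hh
  obtain ⟨y, hy⟩ : ∃ y : ℕ → Fin (m + 1) → ℤ, y = fun n =>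
      (U n : Matrix (Fin (m + 1)) (Fin (m + 1)) ℤ) *ᵥ x := ⟨_, rfl⟩
  have hy0 : ∀ n, y n ≠ 0 := by
    intro n
    rw [hy]
    exact mulVec_ne (det_unit_ne _) hx
  obtain ⟨g, hg⟩ : ∃ g : ℕ → Matrix (Fin (m + 1)) (Fin (m + 1)) ℝ, g = fun n =>
      diagonal (a n) * LG α * im (U n : Matrix (Fin (m + 1)) (Fin (m + 1)) ℤ) := ⟨_, rfl⟩
  rw [← hg] at hlim
  -- coordinates
  have hgx : ∀ n, g n *ᵥ ic x = (diagonal (a n) * LG α) *ᵥ ic (y n) := by
    intro n
    rw [hg, hy]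
    simp only
    rw [← Matrix.mulVec_mulVec, im_mulVec]
  have hg0 : ∀ n, (g n *ᵥ ic x) 0 = a n 0 * (y n 0 : ℝ) := by
    intro n
    rw [hgx, ← Matrix.mulVec_mulVec, Matrix.mulVec_diagonal, LG_mulVec_zero]
    rfl
  have hgs : ∀ n (i : Fin m), (g n *ᵥ ic x) i.succ =
      a n i.succ * (α i * (y n 0 : ℝ) - (y n i.succ : ℝ)) := by
    intro n i
    rw [hgx, ← Matrix.mulVec_mulVec, Matrix.mulVec_diagonal, LG_mulVec_succ]
    rfl
  have hlim' : ∀ i, Tendsto (fun n => (g n *ᵥ ic x) i) atTop (𝓝 ((h *ᵥ ic x) i)) := by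
    intro i
    have hcont : Continuous fun M : Matrix (Fin (m + 1)) (Fin (m + 1)) ℝ => (M *ᵥ ic x) i :=
      (continuous_apply i).comp (continuous_id.matrix_mulVec continuous_const)
    exact (hcont.tendsto h).comp hlim
  have hPlim : Tendsto (fun n => |P (g n) (ic x)|) atTop (𝓝 |P h (ic x)|) :=
    ((continuous_P (ic x)).abs.tendsto h).comp hlim
  have hPn : ∀ n, P (g n) (ic x) = P (LG α) (ic (y n)) := by
    intro n
    rw [hg, hy]
    simp only
    rw [P_mul_im, P_diag_mul, (hD.1 n).2, one_mul]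
  -- (1)
  have hev1 : ∀ᶠ n in atTop, ∀ i : Fin m, |(g n *ᵥ ic x) i.succ| < a n i.succ := by
    refine eventually_all.2 fun i => ?_
    have h1 : ∀ᶠ n in atTop, |(g n *ᵥ ic x) i.succ| < |(h *ᵥ ic x) i.succ| + 1 :=
      (hlim' i.succ).abs.eventually_lt_const (lt_add_one _)
    have h2 := (hD.2 i).eventually_ge_atTop (|(h *ᵥ ic x) i.succ| + 1)
    filter_upwards [h1, h2] with n e1 e2
    exact e1.trans_le e2
  have hev2 : ∀ᶠ n in atTop, y n 0 ≠ 0 := by
    filter_upwards [hev1] with n hn h0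
    obtain ⟨i, hi⟩ : ∃ i : Fin m, y n i.succ ≠ 0 := by
      by_contra hcon
      push Not at hcon
      apply hy0 n
      ext i
      refine Fin.cases ?_ (fun i => ?_) i
      · rw [h0]
        rfl
      · rw [hcon i]
        rfl
    have h1 := hn i
    rw [hgs, h0, Int.cast_zero, mul_zero, zero_sub, abs_mul, abs_neg,
      abs_of_pos ((hD.1 n).1 _)] at h1
    have h2 : (1 : ℝ) ≤ |(y n i.succ : ℝ)| := by
      rw [← Int.cast_abs]
      exact_mod_cast Int.one_le_abs hi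
    have h3 : a n i.succ * 1 ≤ a n i.succ * |(y n i.succ : ℝ)| :=
      mul_le_mul_of_nonneg_left h2 ((hD.1 n).1 _).le
    linarith
  -- (2)
  have hcP : c ≤ |P h (ic x)| := by
    refine ge_of_tendsto hPlim ?_
    filter_upwards [hev2] with n hn
    rw [hPn]
    exact hp _ hn
  refine ⟨hcP, ?_⟩
  -- (3)
  have hw0 : 0 < |(h *ᵥ ic x) 0| := by
    rw [abs_pos]
    intro h0
    have : P h (ic x) = 0 := by
      rw [P_eq]
      exact Finset.prod_eq_zero (Finset.mem_univ 0) h0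
    rw [this, abs_zero] at hcP
    linarith
  have ha0 : Tendsto (fun n => (a n 0)⁻¹) atTop atTop := by
    have hev : ∀ᶠ n in atTop, ∀ i : Fin m, 1 ≤ a n i.succ :=
      eventually_all.2 fun i => (hD.2 i).eventually_ge_atTop 1
    refine tendsto_atTop_mono' _ ?_ (hD.2 ⟨0, hm⟩)
    filter_upwards [hev] with n hn
    have h1 := (hD.1 n).2
    rw [Fin.prod_univ_succ] at h1
    have h2 : (a n 0)⁻¹ = ∏ i : Fin m, a n i.succ :=
      (eq_inv_of_mul_eq_one_right h1).symm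
    rw [h2, ← Finset.mul_prod_erase _ _ (Finset.mem_univ (⟨0, hm⟩ : Fin m))]
    refine le_mul_of_one_le_right ((hD.1 n).1 _).le ?_
    calc (1 : ℝ) = ∏ i ∈ Finset.univ.erase (⟨0, hm⟩ : Fin m), (1 : ℝ) :=
          Finset.prod_const_one.symm
      _ ≤ _ := Finset.prod_le_prod (fun _ _ => zero_le_one) fun i _ => hn i
  have hq : Tendsto (fun n => (y n 0).natAbs) atTop atTop := by
    have h1 : Tendsto (fun n => |(g n *ᵥ ic x) 0| * (a n 0)⁻¹) atTop atTop :=
      Tendsto.pos_mul_atTop hw0 (hlim' 0).abs ha0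
    have h2 : (fun n => |(g n *ᵥ ic x) 0| * (a n 0)⁻¹) = fun n => ((y n 0).natAbs : ℝ) := by
      funext n
      rw [hg0, abs_mul, abs_of_pos ((hD.1 n).1 0), Nat.cast_natAbs, Int.cast_abs, mul_comm,
        inv_mul_cancel_left₀ ((hD.1 n).1 0).ne']
    rw [h2] at h1
    exact tendsto_natCast_atTop_iff.1 h1
  -- (4)
  have hev3 : ∀ᶠ n in atTop, ∀ i : Fin m, |α i * (y n 0 : ℝ) - (y n i.succ : ℝ)| < 1 / 2 := by
    refine eventually_all.2 fun i => ?_
    have h1 : Tendsto (fun n => (g n *ᵥ ic x) i.succ / a n i.succ) atTop (𝓝 0) :=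
      (hlim' i.succ).div_atTop (hD.2 i)
    have h2 : (fun n => (g n *ᵥ ic x) i.succ / a n i.succ) =
        fun n => α i * (y n 0 : ℝ) - (y n i.succ : ℝ) := by
      funext n
      rw [hgs, mul_div_cancel_left₀ _ ((hD.1 n).1 _).ne']
    rw [h2] at h1
    have h3 := h1.abs
    rw [abs_zero] at h3
    exact h3.eventually_lt_const (by norm_num)
  have hfq : ∀ᶠ n in atTop, |P (g n) (ic x)| = (fq α ∘ fun n => (y n 0).natAbs) n := by
    filter_upwards [hev3] with n hn
    rw [hPn, P_LG, abs_mul, Finset.abs_prod]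
    simp only [Function.comp, fq]
    have e1 : |ic (y n) 0| = ((y n 0).natAbs : ℝ) := by
      rw [Nat.cast_natAbs, Int.cast_abs]
      rfl
    rw [e1]
    congr 1
    refine Finset.prod_congr rfl fun i _ => ?_
    exact dist_nat (hn i)
  have hfin : Tendsto (fq α ∘ fun n => (y n 0).natAbs) atTop (𝓝 |P h (ic x)|) :=
    hPlim.congr' hfq
  exact MapClusterPt.of_comp hq hfin.mapClusterPt

theorem LimL.pos (hm : 1 ≤ m) {α : Fin m → ℝ} {c : ℝ} (hc : 0 < c) (hp : LPos c α)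
    {h : Matrix (Fin (m + 1)) (Fin (m + 1)) ℝ} (hh : LimL α h) : Pos c h :=
  fun _ hx => (hh.core hm hc hp hx).1

end Pool.Agent.H81.LW
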