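import Pool.Agent.H81.LW.Lsc

/-!
# Lmag: magnification inside the cone

`a n` deep, `g n = diagonal (a n) * LG α * im (U n) → h₀`, `Pos c h₀`.  Let `E n = g n * h₀⁻¹ - 1 → 0`, so
`g n = (1 + E n) * h₀`.  Drop finitely many `n` (shift the sequence): all entries of `E n` are `< 1` in absolute value;
`hrow` gives `j ≠ i₀.succ` with `E n i₀.succ j ≠ 0`.  `scale` gives `t n ≥ 0`; put `b n = bs i₀ (t n)`,
`E' n = diagonal (b n) * E n * diagonal (b n)⁻¹`, entries `b n i * E n i j * (b n j)⁻¹`, all bounded by `1` in absolute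
value.  `mahler` for `diagonal (b n) * h₀` (`Pos.diag_mul`, `Pos.short`, determinant `|det h₀|`) gives units `V n` with
`diagonal (b n) * h₀ * im (V n)` bounded.  Take a subsequence along which `E' n → v` and
`diagonal (b n) * h₀ * im (V n) → h'` (product of two compact sets, `IsCompact.tendsto_subseq`).  `v` has zero
diagonal and zero row `0` (`sw i₀ 0 = -1` is the smallest weight, so these entries are `≤ |E n i j| → 0`), and
`v ≠ 0`: infinitely many `n` have the same pair `(i, j)` with `|E' n i j| = 1` (pigeonhole), or: the continuous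
function `∑ |E' n i j|` is `≥ 1` along the sequence.
`diagonal (b n) * g n * im (V n) = (1 + E' n) * (diagonal (b n) * h₀ * im (V n)) → (1 + v) * h'` and
`diagonal (b n) * diagonal (a n)` is deep: entries `≥ a n i.succ` by `bs_ge`, in `A1` by `bs_A1`; the unit is
`U n * V n` (`im_mul`).
-/

set_option autoImplicit false

namespace Pool.Agent.H81.LW

open Matrix Filter Topology Pool.Agent.H89.CSD Pool.Agent.H46.RG

variable {m : ℕ}

private theorem isCompact_box (d : ℕ) (R : ℝ) :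
    IsCompact {M : Matrix (Fin d) (Fin d) ℝ | ∀ i j, |M i j| ≤ R} := by
  have : {M : Matrix (Fin d) (Fin d) ℝ | ∀ i j, |M i j| ≤ R} =
      Set.pi Set.univ fun _ : Fin d => Set.pi Set.univ fun _ : Fin d => Set.Icc (-R) R := by
    ext M
    constructor
    · intro h i _ j _
      exact abs_le.1 (h i j)
    · intro h i j
      exact abs_le.2 (h i (Set.mem_univ i) j (Set.mem_univ j))
  rw [this]
  exact isCompact_univ_pi fun i => isCompact_univ_pi fun j => isCompact_Icc

private theorem tendsto_entry {d : ℕ} {f : ℕ → Matrix (Fin d) (Fin d) ℝ}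
    {w : Matrix (Fin d) (Fin d) ℝ} (h : Tendsto f atTop (𝓝 w)) (i j : Fin d) :
    Tendsto (fun n => f n i j) atTop (𝓝 (w i j)) :=
  ((continuous_id.matrix_elem i j).tendsto w).comp h

private theorem sw_zero_le (i₀ : Fin m) (j : Fin (m + 1)) : sw i₀ 0 ≤ sw i₀ j := by
  unfold sw
  rw [if_pos rfl]
  split_ifs <;> norm_num

theorem magn (i₀ : Fin m) {α : Fin m → ℝ} {h₀ : Matrix (Fin (m + 1)) (Fin (m + 1)) ℝ}
    (hdet : h₀.det ≠ 0) {c : ℝ} (hc : 0 < c) (hp : Pos c h₀) {a : ℕ → Fin (m + 1) → ℝ}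
    {U : ℕ → (Matrix (Fin (m + 1)) (Fin (m + 1)) ℤ)ˣ} (ha : Deep a)
    (hlim : Tendsto (fun n => diagonal (a n) * LG α *
      im (U n : Matrix (Fin (m + 1)) (Fin (m + 1)) ℤ)) atTop (𝓝 h₀))
    (hrow : ∀ (n : ℕ) (E : Matrix (Fin (m + 1)) (Fin (m + 1)) ℝ),
      diagonal (a n) * LG α * im (U n : Matrix (Fin (m + 1)) (Fin (m + 1)) ℤ) = (1 + E) * h₀ →
      |E i₀.succ i₀.succ| < 1 → ∃ j, j ≠ i₀.succ ∧ E i₀.succ j ≠ 0) :
    ∃ (b : ℕ → Fin (m + 1) → ℝ) (V : ℕ → (Matrix (Fin (m + 1)) (Fin (m + 1)) ℤ)ˣ)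
      (h' v : Matrix (Fin (m + 1)) (Fin (m + 1)) ℝ), (∀ n, b n ∈ A1 (m + 1)) ∧
      Tendsto (fun n => diagonal (b n) * h₀ *
        im (V n : Matrix (Fin (m + 1)) (Fin (m + 1)) ℤ)) atTop (𝓝 h') ∧
      v ≠ 0 ∧ (∀ j, v 0 j = 0) ∧ (∀ i, v i i = 0) ∧ LimL α ((1 + v) * h') := by
  have hu : IsUnit h₀.det := isUnit_iff_ne_zero.2 hdet
  obtain ⟨g, hg⟩ : ∃ g : ℕ → Matrix (Fin (m + 1)) (Fin (m + 1)) ℝ, g = fun n =>
      diagonal (a n) * LG α * im (U n : Matrix (Fin (m + 1)) (Fin (m + 1)) ℤ) := ⟨_, rfl⟩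
  rw [← hg] at hlim
  obtain ⟨E, hE⟩ : ∃ E : ℕ → Matrix (Fin (m + 1)) (Fin (m + 1)) ℝ, E = fun n =>
      g n * h₀⁻¹ - 1 := ⟨_, rfl⟩
  have hgE : ∀ n, g n = (1 + E n) * h₀ := by
    intro n
    rw [hE]
    simp only
    rw [add_sub_cancel, Matrix.mul_assoc, Matrix.nonsing_inv_mul _ hu, Matrix.mul_one]
  have hElim : Tendsto E atTop (𝓝 0) := by
    have hcont : Continuous fun M : Matrix (Fin (m + 1)) (Fin (m + 1)) ℝ => M * h₀⁻¹ - 1 :=
      (continuous_id.matrix_mul continuous_const).sub continuous_const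
    have h1 := (hcont.tendsto h₀).comp hlim
    simp only [Matrix.mul_nonsing_inv _ hu, sub_self] at h1
    rw [hE]
    exact h1
  have hEent : ∀ i j, Tendsto (fun n => |E n i j|) atTop (𝓝 0) := by
    intro i j
    have h1 := (tendsto_entry hElim i j).abs
    rwa [Matrix.zero_apply, abs_zero] at h1
  have hev : ∀ᶠ n in atTop, ∀ i j, |E n i j| < 1 :=
    eventually_all.2 fun i => eventually_all.2 fun j =>
      (hEent i j).eventually_lt_const one_pos
  obtain ⟨N, hN⟩ := eventually_atTop.1 hev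
  have hN' : ∀ n i j, |E (n + N) i j| < 1 := fun n => hN (n + N) (Nat.le_add_left _ _)
  choose t ht0 ht1 ht2 ht3 using fun n => scale i₀ (hN' n)
    (hrow (n + N) (E (n + N)) (by
      have := hgE (n + N)
      rw [hg] at this
      exact this) (hN' n _ _))
  obtain ⟨b, hb⟩ : ∃ b : ℕ → Fin (m + 1) → ℝ, b = fun n => bs i₀ (t n) := ⟨_, rfl⟩
  have hbA : ∀ n, b n ∈ A1 (m + 1) := by
    intro n
    rw [hb]
    exact bs_A1 i₀ (t n)
  obtain ⟨E', hE'⟩ : ∃ E' : ℕ → Matrix (Fin (m + 1)) (Fin (m + 1)) ℝ, E' = fun n =>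
      diagonal (b n) * E (n + N) * diagonal (fun j => (b n j)⁻¹) := ⟨_, rfl⟩
  have hEe : ∀ n i j, E' n i j = b n i * E (n + N) i j * (b n j)⁻¹ := by
    intro n i j
    rw [hE']
    simp only
    rw [Matrix.mul_diagonal, Matrix.diagonal_mul]
  have hE1 : ∀ n i j, sw i₀ i ≤ sw i₀ j → |E' n i j| ≤ |E (n + N) i j| := by
    intro n i j hij
    rw [hEe, hb]
    exact ht3 n i j hij
  have hEb : ∀ n i j, |E' n i j| ≤ 1 := by
    intro n i j
    rcases le_or_gt (sw i₀ i) (sw i₀ j) with hij | hij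
    · exact (hE1 n i j hij).trans (hN' n i j).le
    · rw [hEe, hb]
      exact ht1 n i j hij
  have hEx : ∀ n, ∃ i j, |E' n i j| = 1 := by
    intro n
    obtain ⟨i, j, -, hij⟩ := ht2 n
    refine ⟨i, j, ?_⟩
    rw [hEe, hb]
    exact hij
  -- units
  obtain ⟨R, hR0, hR⟩ := mahler (m + 1) (min c 1) |h₀.det| |h₀.det| (lt_min hc one_pos)
    (abs_pos.2 hdet) (abs_nonneg _)
  have hbdet : ∀ n, |(diagonal (b n) * h₀).det| = |h₀.det| := by
    intro n
    rw [Matrix.det_mul, Matrix.det_diagonal, (hbA n).2, one_mul]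
  have hbpos : ∀ n, Pos c (diagonal (b n) * h₀) := fun n =>
    hp.diag_mul (by rw [(hbA n).2, abs_one])
  choose V hV using fun n => hR (diagonal (b n) * h₀) (hbdet n).ge (hbdet n).le
    (fun x hx => (hbpos n).short hx)
  have hK : ∀ n, (E' n, diagonal (b n) * h₀ *
      im (V n : Matrix (Fin (m + 1)) (Fin (m + 1)) ℤ)) ∈
      {M : Matrix (Fin (m + 1)) (Fin (m + 1)) ℝ | ∀ i j, |M i j| ≤ 1} ×ˢ
        {M : Matrix (Fin (m + 1)) (Fin (m + 1)) ℝ | ∀ i j, |M i j| ≤ R} := by
    intro n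
    exact ⟨hEb n, hV n⟩
  obtain ⟨⟨v, h'⟩, -, φ, hφ, hlim2⟩ :=
    ((isCompact_box (m + 1) 1).prod (isCompact_box (m + 1) R)).tendsto_subseq hK
  have hv : Tendsto (fun n => E' (φ n)) atTop (𝓝 v) :=
    (continuous_fst.tendsto (v, h')).comp hlim2
  have hh' : Tendsto (fun n => diagonal (b (φ n)) * h₀ *
      im (V (φ n) : Matrix (Fin (m + 1)) (Fin (m + 1)) ℤ)) atTop (𝓝 h') :=
    (continuous_snd.tendsto (v, h')).comp hlim2
  have hφN : Tendsto (fun n => φ n + N) atTop atTop :=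
    tendsto_atTop_mono (fun n => Nat.le_add_right _ _) hφ.tendsto_atTop
  have hzero : ∀ i j, sw i₀ i ≤ sw i₀ j → v i j = 0 := by
    intro i j hij
    have h1 := (tendsto_entry hv i j).abs
    have h2 : Tendsto (fun n => |E (φ n + N) i j|) atTop (𝓝 0) := (hEent i j).comp hφN
    have h3 : |v i j| ≤ 0 := le_of_tendsto_of_tendsto' h1 h2 fun n => hE1 (φ n) i j hij
    exact abs_eq_zero.1 (le_antisymm h3 (abs_nonneg _))
  refine ⟨fun n => b (φ n), fun n => V (φ n), h', v, fun n => hbA _, hh', ?_,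
    fun j => hzero 0 j (sw_zero_le i₀ j), fun i => hzero i i le_rfl, ?_⟩
  · intro hv0
    have h1 : ∀ᶠ n in atTop, ∀ i j, |E' (φ n) i j| < 1 := by
      refine eventually_all.2 fun i => eventually_all.2 fun j => ?_
      have h2 := (tendsto_entry hv i j).abs
      rw [hv0, Matrix.zero_apply, abs_zero] at h2
      exact h2.eventually_lt_const one_pos
    obtain ⟨n, hn⟩ := h1.exists
    obtain ⟨i, j, hij⟩ := hEx (φ n)
    exact absurd hij (hn i j).ne
  · refine ⟨fun n i => b (φ n) i * a (φ n + N) i, fun n => U (φ n + N) * V (φ n),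
      ⟨fun n => ⟨fun i => mul_pos ((hbA _).1 i) ((ha.1 _).1 i), ?_⟩, fun i => ?_⟩, ?_⟩
    · rw [Finset.prod_mul_distrib, (hbA _).2, (ha.1 _).2, one_mul]
    · refine tendsto_atTop_mono (fun n => ?_) ((ha.2 i).comp hφN)
      have h1 : 1 ≤ b (φ n) i.succ := by
        rw [hb]
        exact bs_ge i₀ (ht0 _) i
      exact le_mul_of_one_le_left ((ha.1 _).1 _).le h1
    · have hcont : Tendsto (fun n => (1 + E' (φ n)) * (diagonal (b (φ n)) * h₀ *
          im (V (φ n) : Matrix (Fin (m + 1)) (Fin (m + 1)) ℤ))) atTop (𝓝 ((1 + v) * h')) := by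
        have hc2 : Continuous fun p : Matrix (Fin (m + 1)) (Fin (m + 1)) ℝ ×
            Matrix (Fin (m + 1)) (Fin (m + 1)) ℝ => (1 + p.1) * p.2 :=
          (continuous_const.add continuous_fst).matrix_mul continuous_snd
        exact (hc2.tendsto (v, h')).comp (hv.prodMk_nhds hh')
      refine hcont.congr fun n => ?_
      have e1 : diagonal (fun i => b (φ n) i * a (φ n + N) i) =
          diagonal (b (φ n)) * diagonal (a (φ n + N)) :=
        (Matrix.diagonal_mul_diagonal _ _).symm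
      have e2 : im ((U (φ n + N) * V (φ n) : (Matrix (Fin (m + 1)) (Fin (m + 1)) ℤ)ˣ) :
          Matrix (Fin (m + 1)) (Fin (m + 1)) ℤ) =
          im (U (φ n + N) : Matrix (Fin (m + 1)) (Fin (m + 1)) ℤ) *
            im (V (φ n) : Matrix (Fin (m + 1)) (Fin (m + 1)) ℤ) := by
        rw [Units.val_mul, im_mul]
      have e3 : diagonal (a (φ n + N)) * LG α *
          im (U (φ n + N) : Matrix (Fin (m + 1)) (Fin (m + 1)) ℤ) = (1 + E (φ n + N)) * h₀ := by
        have := hgE (φ n + N)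
        rw [hg] at this
        exact this
      have e4 : diagonal (fun j => (b (φ n) j)⁻¹) * diagonal (b (φ n)) =
          (1 : Matrix (Fin (m + 1)) (Fin (m + 1)) ℝ) := by
        rw [Matrix.diagonal_mul_diagonal, ← Matrix.diagonal_one]
        congr 1
        funext j
        exact inv_mul_cancel₀ ((hbA _).1 j).ne'
      have e5 : (1 + E' (φ n)) * diagonal (b (φ n)) =
          diagonal (b (φ n)) * (1 + E (φ n + N)) := by
        rw [hE']
        simp only
        rw [Matrix.add_mul, Matrix.one_mul, Matrix.mul_assoc, e4, Matrix.mul_one,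
          Matrix.mul_add, Matrix.mul_one]
      rw [e1, e2]
      calc (1 + E' (φ n)) * (diagonal (b (φ n)) * h₀ *
          im (V (φ n) : Matrix (Fin (m + 1)) (Fin (m + 1)) ℤ)) =
          ((1 + E' (φ n)) * diagonal (b (φ n))) * h₀ *
            im (V (φ n) : Matrix (Fin (m + 1)) (Fin (m + 1)) ℤ) := by
            simp only [Matrix.mul_assoc]
        _ = diagonal (b (φ n)) * ((1 + E (φ n + N)) * h₀) *
            im (V (φ n) : Matrix (Fin (m + 1)) (Fin (m + 1)) ℤ) := by
            rw [e5]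
            simp only [Matrix.mul_assoc]
        _ = _ := by
            rw [← e3]
            simp only [Matrix.mul_assoc]

end Pool.Agent.H81.LW
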