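import Pool.Agent.H81.LW.Def

/-!
# Lmk: Minkowski's constant for products of linear forms

For `C > d! / d ^ d` every invertible `h` has an integer `x ≠ 0` with `|P h (ic x)| < C |det h|`.
Proof.  Let `r > 0` with `r ^ d = C' d! |det h|`... precisely choose `C'` with `1 < C'`, `C' * (d! / d ^ d) < C`, and
`r = (C' * d! * |det h|) ^ (1 / d)`.  The set `s = {y | ∑ |(h *ᵥ y) i| ≤ r}` is convex, symmetric, of volume
`(2 r) ^ d / (d! |det h|) = C' 2 ^ d > 2 ^ d` (`MeasureTheory.volume_sum_rpow_le` with `p = 1`: the volume of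
`{y | (∑ |y i| ^ 1) ^ (1 / 1) ≤ r}` is `r ^ d (2 Γ(2)) ^ d / Γ(d + 1)`; `Real.Gamma_nat_eq_factorial`, `Real.Gamma_two`;
`Measure.addHaar_preimage_linearMap`).  As in `H89.CSD.minkowski_forms` there is an integer `x ≠ 0` in `s`.  By the
inequality between the arithmetic and geometric means (`Real.inner_le_nnorm_mul_nnorm` is not needed:
`Real.geom_mean_le_arith_mean_weighted` or `inner`: `∏ z_i ≤ ((∑ z_i) / d) ^ d`, in Mathlib
`Real.inner...`: search `geom_mean_le_arith_mean`) `|P h (ic x)| ≤ (r / d) ^ d = C' d! |det h| / d ^ d < C |det h|`.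
-/

set_option autoImplicit false

namespace Pool.Agent.H81.LW

open Matrix Filter Topology Pool.Agent.H89.CSD Pool.Agent.H46.RG

variable {m : ℕ}

private theorem lmk_amgm {d : ℕ} (hd : 1 ≤ d) (z : Fin d → ℝ) (hz : ∀ i, 0 ≤ z i) :
    ∏ i, z i ≤ ((∑ i, z i) / d) ^ d := by
  have hd0 : (d : ℝ) ≠ 0 := by positivity
  have h := Real.geom_mean_le_arith_mean_weighted Finset.univ (fun _ : Fin d => (d : ℝ)⁻¹) z
    (fun _ _ => by positivity) (by simp [hd0]) (fun i _ => hz i)
  have h0 : 0 ≤ ∏ i, z i ^ ((d : ℝ)⁻¹) :=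
    Finset.prod_nonneg fun i _ => Real.rpow_nonneg (hz i) _
  have h1 := pow_le_pow_left₀ h0 h d
  rw [← Finset.prod_pow, ← Finset.mul_sum] at h1
  have h2 : ∀ i ∈ Finset.univ, (z i ^ ((d : ℝ)⁻¹)) ^ d = z i := fun i _ =>
    Real.rpow_inv_natCast_pow (hz i) (by omega)
  rw [Finset.prod_congr rfl h2] at h1
  rwa [div_eq_inv_mul]

open MeasureTheory in
private theorem lmk_vol {d : ℕ} (hd : 1 ≤ d) (r : ℝ) (hr : 0 ≤ r) :
    volume {y : Fin d → ℝ | ∑ i, |y i| ≤ r} = ENNReal.ofReal (r ^ d * (2 ^ d / (d.factorial : ℝ))) := by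
  haveI : Nonempty (Fin d) := ⟨⟨0, by omega⟩⟩
  have h := MeasureTheory.volume_sum_rpow_le (ι := Fin d) (p := 1) le_rfl r
  have h1 : {x : Fin d → ℝ | (∑ i, |x i| ^ (1 : ℝ)) ^ ((1 : ℝ) / 1) ≤ r} =
      {y : Fin d → ℝ | ∑ i, |y i| ≤ r} := by
    ext x
    simp
  rw [h1] at h
  rw [h, ENNReal.ofReal_mul (by positivity), ENNReal.ofReal_pow hr, Fintype.card_fin]
  congr 2
  have h2 : (1 : ℝ) / 1 + 1 = 2 := by norm_num
  rw [h2, Real.Gamma_two, div_one, Real.Gamma_nat_eq_factorial]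
  norm_num

open MeasureTheory in
private theorem lmk_body {d : ℕ} (hd : 1 ≤ d) (M : Matrix (Fin d) (Fin d) ℝ) (hM : M.det ≠ 0)
    (r : ℝ) (hr : 0 ≤ r) (h : (d.factorial : ℝ) * |M.det| < r ^ d) :
    ∃ x : Fin d → ℤ, x ≠ 0 ∧ ∑ i, |∑ j, M i j * (x j : ℝ)| ≤ r := by
  classical
  set b : Module.Basis (Fin d) ℝ (Fin d → ℝ) := Pi.basisFun ℝ (Fin d) with hb
  set f : (Fin d → ℝ) →ₗ[ℝ] (Fin d → ℝ) := Matrix.toLin' M with hf
  have hfdet : LinearMap.det f = M.det := LinearMap.det_toLin' M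
  set s : Set (Fin d → ℝ) := f ⁻¹' {y : Fin d → ℝ | ∑ i, |y i| ≤ r} with hs
  have hpos : 0 < |M.det| := abs_pos.2 hM
  have hvol : volume s = ENNReal.ofReal (|M.det|⁻¹ * (r ^ d * (2 ^ d / (d.factorial : ℝ)))) := by
    rw [hs, Measure.addHaar_preimage_linearMap volume (by rwa [hfdet]), hfdet, lmk_vol hd r hr,
      ENNReal.ofReal_mul (inv_nonneg.2 (abs_nonneg _)), abs_inv]
  have hF : volume (ZSpan.fundamentalDomain b) = 1 := by
    rw [hb, ZSpan.volume_fundamentalDomain]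
    have : Matrix.of (⇑(Pi.basisFun ℝ (Fin d))) = 1 := by
      ext i j
      simp [Matrix.one_apply, Pi.single_apply, eq_comm]
    rw [this]
    simp
  have hlt : volume (ZSpan.fundamentalDomain b) * 2 ^ Module.finrank ℝ (Fin d → ℝ) < volume s := by
    rw [hF, hvol, one_mul, Module.finrank_fin_fun]
    have h2 : (2 : ENNReal) ^ d = ENNReal.ofReal ((2 : ℝ) ^ d) := by
      rw [ENNReal.ofReal_pow (by norm_num)]
      norm_num
    rw [h2]
    have hfac : (0 : ℝ) < (d.factorial : ℝ) := by exact_mod_cast d.factorial_pos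
    have h4 : (0 : ℝ) < 2 ^ d := by positivity
    have hr' : 0 < r ^ d := lt_trans (by positivity) h
    rw [ENNReal.ofReal_lt_ofReal_iff (by positivity)]
    have h5 : |M.det|⁻¹ * (r ^ d * (2 ^ d / (d.factorial : ℝ))) =
        2 ^ d * (r ^ d / ((d.factorial : ℝ) * |M.det|)) := by
      field_simp
    rw [h5]
    have h6 : 1 < r ^ d / ((d.factorial : ℝ) * |M.det|) := by
      rw [one_lt_div (by positivity)]
      exact h
    nlinarith
  haveI : Countable (Submodule.span ℤ (Set.range b)).toAddSubgroup := by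
    change Countable (Submodule.span ℤ (Set.range b))
    infer_instance
  have hconv : Convex ℝ {y : Fin d → ℝ | ∑ i, |y i| ≤ r} := by
    intro x hx y hy a c ha hc hac
    simp only [Set.mem_setOf_eq] at hx hy ⊢
    calc ∑ i, |(a • x + c • y) i| ≤ ∑ i, (a * |x i| + c * |y i|) := by
          apply Finset.sum_le_sum
          intro i _
          simp only [Pi.add_apply, Pi.smul_apply, smul_eq_mul]
          refine (abs_add_le _ _).trans ?_
          rw [abs_mul, abs_mul, abs_of_nonneg ha, abs_of_nonneg hc]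
      _ = a * ∑ i, |x i| + c * ∑ i, |y i| := by
          rw [Finset.sum_add_distrib, Finset.mul_sum, Finset.mul_sum]
      _ ≤ a * r + c * r :=
          add_le_add (mul_le_mul_of_nonneg_left hx ha) (mul_le_mul_of_nonneg_left hy hc)
      _ = r := by rw [← add_mul, hac, one_mul]
  obtain ⟨x, hx0, hx⟩ := exists_ne_zero_mem_lattice_of_measure_mul_two_pow_lt_measure
    (L := (Submodule.span ℤ (Set.range b)).toAddSubgroup)
    (ZSpan.isAddFundamentalDomain b volume) (s := s)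
    (fun x hx => by
      simp only [hs, Set.mem_preimage, map_neg, Set.mem_setOf_eq, Pi.neg_apply, abs_neg] at hx ⊢
      exact hx)
    (hconv.linear_preimage f) hlt
  have hxm : (x : Fin d → ℝ) ∈ Submodule.span ℤ (Set.range b) := x.2
  rw [Module.Basis.mem_span_iff_repr_mem] at hxm
  choose z hz using hxm
  have hz' : ∀ i, (x : Fin d → ℝ) i = (z i : ℝ) := by
    intro i
    have := hz i
    simp only [hb, Pi.basisFun_repr] at this
    rw [← this]
    simp
  refine ⟨z, ?_, ?_⟩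
  · rintro rfl
    apply hx0
    ext i
    simp [hz' i]
  · have h1 := hx
    simp only [hs, Set.mem_preimage, Set.mem_setOf_eq] at h1
    refine le_trans (le_of_eq ?_) h1
    refine Finset.sum_congr rfl fun i _ => ?_
    have h2 : f (x : Fin d → ℝ) i = ∑ j, M i j * (z j : ℝ) := by
      rw [hf, Matrix.toLin'_apply]
      simp only [Matrix.mulVec, dotProduct, hz']
    rw [h2]

theorem mink_l1 {d : ℕ} (hd : 1 ≤ d) {C : ℝ} (hC : (d.factorial : ℝ) / (d : ℝ) ^ d < C)
    (h : Matrix (Fin d) (Fin d) ℝ) (hh : h.det ≠ 0) :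
    ∃ x : Fin d → ℤ, x ≠ 0 ∧ |P h (ic x)| < C * |h.det| := by
  have hd0 : (0 : ℝ) < d := by exact_mod_cast hd
  have hfac : (0 : ℝ) < (d.factorial : ℝ) := by exact_mod_cast d.factorial_pos
  have hpos : 0 < |h.det| := abs_pos.2 hh
  set κ : ℝ := (d.factorial : ℝ) / (d : ℝ) ^ d with hκ
  have hκ0 : 0 < κ := by positivity
  set C' : ℝ := (1 + C / κ) / 2 with hC'
  have hCκ : 1 < C / κ := by rwa [one_lt_div hκ0]
  have hC1 : 1 < C' := by
    rw [hC']
    linarith
  have hC2 : C' * κ < C := by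
    have h1 : C' * κ = (κ + C) / 2 := by
      rw [hC']
      field_simp
    rw [h1]
    linarith
  set r : ℝ := (C' * d.factorial * |h.det|) ^ ((d : ℝ)⁻¹) with hr
  have hC0 : 0 < C' := by linarith
  have hr0 : 0 ≤ r := Real.rpow_nonneg (by positivity) _
  have hrd : r ^ d = C' * d.factorial * |h.det| :=
    Real.rpow_inv_natCast_pow (by positivity) (by omega)
  obtain ⟨x, hx0, hx⟩ := lmk_body hd h hh r hr0 (by
    rw [hrd, mul_assoc]
    have : 0 < (d.factorial : ℝ) * |h.det| := by positivity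
    nlinarith)
  refine ⟨x, hx0, ?_⟩
  have h1 : |P h (ic x)| = ∏ i, |∑ j, h i j * (x j : ℝ)| := by
    unfold P ic
    rw [Finset.abs_prod]
  rw [h1]
  have h2 := lmk_amgm hd (fun i => |∑ j, h i j * (x j : ℝ)|) (fun i => abs_nonneg _)
  refine lt_of_le_of_lt h2 ?_
  have h3 : ((∑ i, |∑ j, h i j * (x j : ℝ)|) / d) ^ d ≤ (r / d) ^ d := by
    apply pow_le_pow_left₀
    · exact div_nonneg (Finset.sum_nonneg fun i _ => abs_nonneg _) hd0.le
    · exact div_le_div_of_nonneg_right hx hd0.le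
  refine lt_of_le_of_lt h3 ?_
  have h4 : (r / d) ^ d = C' * κ * |h.det| := by
    rw [div_pow, hrd, hκ]
    ring
  rw [h4]
  exact mul_lt_mul_of_pos_right hC2 hpos

end Pool.Agent.H81.LW
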