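import Pool.Agent.H81.LW.Def

/-!
# Lrow: the rows of `diagonal a * LG α * U` and of a matrix with `Pos c`

`m ≥ 2`, `i : Fin m`.  Choose `i' ≠ i` in `Fin m` and let `y = Pi.single i'.succ 1` (integer vector), so `y 0 = 0` and
`y i.succ = 0`, and `x = U⁻¹ *ᵥ y ≠ 0`, `U *ᵥ x = y`.  Then `((diagonal a * LG α * im U) *ᵥ ic x) i.succ =
a i.succ * (α i * y 0 - y i.succ) = 0` (`im_mulVec`, `LG_mulVec_succ`).  If all `E i.succ j = 0` for `j ≠ i.succ`
then this coordinate is `(1 + E i.succ i.succ) * (h₀ *ᵥ ic x) i.succ`, which is not zero because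
`|E i.succ i.succ| < 1` and `Pos c h₀` (`P h₀ (ic x)` is the product of the coordinates).  Contradiction.
-/

set_option autoImplicit false

namespace Pool.Agent.H81.LW

open Matrix Filter Topology Pool.Agent.H89.CSD Pool.Agent.H46.RG

variable {m : ℕ}

theorem row_off (hm : 2 ≤ m) {α : Fin m → ℝ} {a : Fin (m + 1) → ℝ}
    {U : (Matrix (Fin (m + 1)) (Fin (m + 1)) ℤ)ˣ} {h₀ E : Matrix (Fin (m + 1)) (Fin (m + 1)) ℝ}
    {c : ℝ} (hc : 0 < c) (hp : Pos c h₀)
    (he : diagonal a * LG α * im (U : Matrix (Fin (m + 1)) (Fin (m + 1)) ℤ) = (1 + E) * h₀)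
    (i : Fin m) (hE : |E i.succ i.succ| < 1) : ∃ j, j ≠ i.succ ∧ E i.succ j ≠ 0 := by
  by_contra hcon
  have hz : ∀ j, j ≠ i.succ → E i.succ j = 0 := by
    intro j hj
    by_contra h
    exact hcon ⟨j, hj, h⟩
  obtain ⟨i', hi'⟩ : ∃ i' : Fin m, i' ≠ i := by
    have h1 : 1 < Fintype.card (Fin m) := by rw [Fintype.card_fin]; omega
    exact Fintype.exists_ne_of_one_lt_card h1 i
  set y : Fin (m + 1) → ℤ := Pi.single i'.succ 1 with hy
  have hy0 : y 0 = 0 := by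
    rw [hy]
    exact Pi.single_eq_of_ne (Fin.succ_ne_zero i').symm 1
  have hyi : y i.succ = 0 := by
    rw [hy]
    refine Pi.single_eq_of_ne ?_ 1
    intro h
    exact hi' (Fin.succ_injective _ h).symm
  have hyne : y ≠ 0 := by
    intro h
    have h1 := congrFun h i'.succ
    rw [hy, Pi.single_eq_same] at h1
    exact one_ne_zero h1
  set x : Fin (m + 1) → ℤ := ((U⁻¹ : (Matrix (Fin (m + 1)) (Fin (m + 1)) ℤ)ˣ) :
    Matrix (Fin (m + 1)) (Fin (m + 1)) ℤ) *ᵥ y with hx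
  have hUx : (U : Matrix (Fin (m + 1)) (Fin (m + 1)) ℤ) *ᵥ x = y := by
    rw [hx, Matrix.mulVec_mulVec, Units.mul_inv, Matrix.one_mulVec]
  have hx0 : x ≠ 0 := by
    intro h
    apply hyne
    rw [← hUx, h, Matrix.mulVec_zero]
  have h1 : ((diagonal a * LG α * im (U : Matrix (Fin (m + 1)) (Fin (m + 1)) ℤ)) *ᵥ ic x) i.succ
      = 0 := by
    rw [← Matrix.mulVec_mulVec, im_mulVec, hUx, ← Matrix.mulVec_mulVec, Matrix.mulVec_diagonal,
      LG_mulVec_succ]
    simp [ic, hy0, hyi]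
  have h2 : (((1 + E) * h₀) *ᵥ ic x) i.succ = (1 + E i.succ i.succ) * (h₀ *ᵥ ic x) i.succ := by
    rw [← Matrix.mulVec_mulVec]
    rw [show ((1 + E) *ᵥ (h₀ *ᵥ ic x)) i.succ =
      ∑ j, ((1 + E : Matrix (Fin (m + 1)) (Fin (m + 1)) ℝ) i.succ j) * (h₀ *ᵥ ic x) j from rfl]
    rw [Finset.sum_eq_single i.succ]
    · rw [Matrix.add_apply, Matrix.one_apply_eq]
    · intro j _ hj
      rw [Matrix.add_apply, Matrix.one_apply_ne hj.symm, hz j hj, add_zero, zero_mul]
    · intro h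
      exact absurd (Finset.mem_univ _) h
  rw [he, h2] at h1
  rcases mul_eq_zero.1 h1 with h3 | h3
  · have := abs_lt.1 hE
    linarith [this.1]
  · have h4 := hp x hx0
    rw [P_eq, Finset.prod_eq_zero (Finset.mem_univ i.succ) h3, abs_zero] at h4
    linarith

end Pool.Agent.H81.LW
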