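import Pool.Agent.H81.LW.Lexi
import Pool.Agent.H81.LW.Llim
import Pool.Agent.H81.LW.Lalg
import Pool.Agent.H81.LW.Lrow
import Pool.Agent.H81.LW.Lmag
import Pool.Agent.H81.LW.Lint

/-!
# Lnon: some limit is not proportional to an integral form

Suppose every limit `h` (`LimL α h`) satisfies `IntForm h`.  Take `h₀` from `exists_limL`, `a, U` from the
definition.  `|det h₀| = 1`, `Pos c h₀`, so `HasT h₀` (`hasT_of_intForm`).  Let `i₀ = ⟨0, _⟩`.  `row_off` gives `hrow`,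
`magn` gives `b, V, h', v`; `hasT_lim`: `HasT h'`, `Pos c h'`.  `(1 + v) * h'` is a limit, so `IntForm`, `Pos c`,
determinant `±1`, so `HasT`.  `rows_eq` with `k = 0`: `v = 0`.  Contradiction.
-/

set_option autoImplicit false

namespace Pool.Agent.H81.LW

open Matrix Filter Topology Pool.Agent.H89.CSD Pool.Agent.H46.RG

variable {m : ℕ}

theorem exists_nonint (hm : 2 ≤ m) {α : Fin m → ℝ} {c : ℝ} (hc : 0 < c) (hp : LPos c α) :
    ∃ h : Matrix (Fin (m + 1)) (Fin (m + 1)) ℝ, LimL α h ∧ ¬ IntForm h := by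
  by_contra hcon
  push Not at hcon
  have hne : ∀ h : Matrix (Fin (m + 1)) (Fin (m + 1)) ℝ, LimL α h → h.det ≠ 0 := by
    intro h hh h0
    have h1 := hh.abs_det
    rw [h0, abs_zero] at h1
    exact zero_ne_one h1
  have hT : ∀ h : Matrix (Fin (m + 1)) (Fin (m + 1)) ℝ, LimL α h → HasT h := fun h hh =>
    hasT_of_intForm hc (hne h hh) (hh.pos (by omega) hc hp) (hcon h hh)
  obtain ⟨h₀, hh₀⟩ := exists_limL hc hp
  have hdet : h₀.det ≠ 0 := hne h₀ hh₀
  have hp0 : Pos c h₀ := hh₀.pos (by omega) hc hp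
  have hT0 : HasT h₀ := hT h₀ hh₀
  obtain ⟨a, U, ha, hlim⟩ := hh₀
  obtain ⟨b, V, h', v, hb, hlim', hv, hv0, hvd, hL⟩ := magn ⟨0, by omega⟩ hdet hc hp0 ha hlim
    (fun n E he hE => row_off hm hc hp0 he _ hE)
  obtain ⟨hp', hdet', hT'⟩ := hasT_lim hdet hc hp0 hT0 hb hlim'
  exact hv (rows_eq hc hp' hdet' hT' (hT _ hL) 0 hv0 hvd)

end Pool.Agent.H81.LW
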