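import Pool.Agent.H81.LW.Def

/-!
# Lpos: a positive lower limit gives a lower bound for all `x` with `x_0 ≠ 0`

`le_dist`: `|y - round y| ≤ |y - z|` for integers `z` (`round_le`).

`lpos_of`: suppose `ε ≤ fq α q` for all `q ≥ N`, `q > 0`.  Let `M = N + 1`.  For `q ≥ 1` the number `M q` is
`≥ N`, and `|M q α_i - round (M q α_i)| ≤ |M q α_i - M round (q α_i)| = M |q α_i - round (q α_i)|`, so
`ε ≤ fq α (M q) ≤ M ^ (m + 1) fq α q`.  Put `c = ε / M ^ (m + 1)`.  Let `x 0 ≠ 0`, `q = (x 0).natAbs`, `s = ±1`,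
`x 0 = s q`: by `P_LG` `|P (LG α) (ic x)| = q ∏ |α_i x 0 - x i.succ|` and
`|α_i x 0 - x i.succ| = |q α_i - s x i.succ| ≥ |q α_i - round (q α_i)|` (`Finset.prod_le_prod`).
-/

set_option autoImplicit false

namespace Pool.Agent.H81.LW

open Matrix Filter Topology Pool.Agent.H89.CSD Pool.Agent.H46.RG

variable {m : ℕ}

theorem le_dist (y : ℝ) (z : ℤ) : |y - round y| ≤ |y - z| := round_le y z

private theorem lpos_mul (α : Fin m → ℝ) (M q : ℕ) :
    fq α (M * q) ≤ (M : ℝ) ^ (m + 1) * fq α q := by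
  unfold fq
  have h1 : ∏ i, |((M * q : ℕ) : ℝ) * α i - round (((M * q : ℕ) : ℝ) * α i)| ≤
      ∏ i, ((M : ℝ) * |(q : ℝ) * α i - round ((q : ℝ) * α i)|) := by
    refine Finset.prod_le_prod (fun _ _ => abs_nonneg _) fun i _ => ?_
    refine (le_dist _ ((M : ℤ) * round ((q : ℝ) * α i))).trans (le_of_eq ?_)
    have hM : (0 : ℝ) ≤ M := Nat.cast_nonneg M
    rw [← abs_of_nonneg hM, ← abs_mul]
    congr 1
    push_cast
    ring
  rw [Finset.prod_mul_distrib, Finset.prod_const, Finset.card_univ, Fintype.card_fin] at h1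
  calc _ ≤ ((M * q : ℕ) : ℝ) * ((M : ℝ) ^ m * ∏ i, |(q : ℝ) * α i - round ((q : ℝ) * α i)|) :=
        mul_le_mul_of_nonneg_left h1 (Nat.cast_nonneg _)
    _ = _ := by
        push_cast
        ring

private theorem lpos_P (α : Fin m → ℝ) (x : Fin (m + 1) → ℤ) :
    fq α (x 0).natAbs ≤ |P (LG α) (ic x)| := by
  rw [P_LG, abs_mul, Finset.abs_prod]
  unfold fq
  have h0 : |ic x 0| = (((x 0).natAbs : ℕ) : ℝ) := by
    show |((x 0 : ℤ) : ℝ)| = _
    rw [Nat.cast_natAbs, Int.cast_abs]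
  rw [h0]
  refine mul_le_mul_of_nonneg_left ?_ (Nat.cast_nonneg _)
  refine Finset.prod_le_prod (fun _ _ => abs_nonneg _) fun i _ => ?_
  show _ ≤ |α i * ((x 0 : ℤ) : ℝ) - ((x i.succ : ℤ) : ℝ)|
  rcases Int.natAbs_eq (x 0) with h | h
  · have h' : ((x 0 : ℤ) : ℝ) = (((x 0).natAbs : ℕ) : ℝ) := by
      conv_lhs => rw [h]
      simp
    rw [h', mul_comm (α i)]
    exact le_dist _ _
  · have h' : ((x 0 : ℤ) : ℝ) = -(((x 0).natAbs : ℕ) : ℝ) := by
      conv_lhs => rw [h]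
      simp
    rw [h', ← abs_neg (α i * _ - _)]
    refine (le_dist _ (-(x i.succ))).trans (le_of_eq ?_)
    congr 1
    push_cast
    ring

theorem lpos_of {α : Fin m → ℝ} {ε : ℝ} (hε : 0 < ε) {N : ℕ}
    (h : ∀ q : ℕ, N ≤ q → 0 < q → ε ≤ fq α q) : ∃ c : ℝ, 0 < c ∧ LPos c α := by
  have hM : (0 : ℝ) < (((N + 1 : ℕ) : ℝ)) ^ (m + 1) := by positivity
  refine ⟨ε / (((N + 1 : ℕ) : ℝ)) ^ (m + 1), by positivity, fun x hx => ?_⟩
  refine le_trans ?_ (lpos_P α x)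
  have hq : 0 < (x 0).natAbs := Int.natAbs_pos.2 hx
  have h1 : N ≤ (N + 1) * (x 0).natAbs := by nlinarith
  have h2 := h _ h1 (by positivity)
  rw [div_le_iff₀ hM, mul_comm]
  exact h2.trans (lpos_mul α (N + 1) _)

end Pool.Agent.H81.LW
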