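import Pool.Agent.H81.LW.Def

/-!
# Lsc: the one-parameter group used for the magnification

`bs i₀ t`: entries `exp (-t)` at `0`, `exp t` at `i₀.succ`, `1` elsewhere.

`bs_A1`: product one (`exp (-t) * exp t`), positive.  `bs_ge`: for `t ≥ 0` all entries at `i.succ` are `≥ 1`.

`scale`: `|E i j| < 1` for all `i, j` and `E i₀.succ j₀ ≠ 0` for some `j₀ ≠ i₀.succ`.  For `t ≥ 0` let
`M(t) = max over the pairs (i, j) with exponent > 0 of |bs t i / bs t j * E i j|`; the ratio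
`bs t i / bs t j` is `exp (w i j * t)` with `w i j = s i - s j`, `s 0 = -1`, `s i₀.succ = 1`, `s = 0` elsewhere.
`M` is continuous, `M 0 < 1`, `M t → ∞` (the pair `(i₀.succ, j₀)` has `w ≥ 1`), so `M t = 1` for some `t ≥ 0`
(intermediate value theorem, `Finset.sup'` of continuous functions; or take the infimum of the `t` with
`1 ≤ M t`; or: for each pair with `w > 0`, `E i j ≠ 0` let `t i j = - log |E i j| / w i j > 0` and take `t` = the
minimum of the `t i j` over these finitely many pairs: then `|E i j| exp (w t) ≤ 1` for all of them with equality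
for the minimising pair; this is the easiest way).
Then all entries with `w > 0` are `≤ 1` in absolute value, one of them is `= 1`, and the entries with
`w ≤ 0` are at most `|E i j|` in absolute value.
-/

set_option autoImplicit false

namespace Pool.Agent.H81.LW

open Matrix Filter Topology Pool.Agent.H89.CSD Pool.Agent.H46.RG

variable {m : ℕ}

/-- The weights of the one-parameter group. -/
def sw (i₀ : Fin m) (i : Fin (m + 1)) : ℝ := if i = 0 then -1 else if i = i₀.succ then 1 else 0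

/-- The one-parameter group. -/
noncomputable def bs (i₀ : Fin m) (t : ℝ) (i : Fin (m + 1)) : ℝ := Real.exp (t * sw i₀ i)

private theorem lsc_sum (i₀ : Fin m) : ∑ i, sw i₀ i = 0 := by
  rw [Fin.sum_univ_succ]
  have h : ∀ i : Fin m, sw i₀ i.succ = if i = i₀ then 1 else 0 := by
    intro i
    simp [sw]
  simp only [h, Finset.sum_ite_eq', Finset.mem_univ, if_true]
  simp [sw]

theorem bs_A1 (i₀ : Fin m) (t : ℝ) : bs i₀ t ∈ A1 (m + 1) := by
  refine ⟨fun i => Real.exp_pos _, ?_⟩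
  unfold bs
  rw [← Real.exp_sum, ← Finset.mul_sum, lsc_sum, mul_zero, Real.exp_zero]

theorem bs_ge (i₀ : Fin m) {t : ℝ} (ht : 0 ≤ t) (i : Fin m) : 1 ≤ bs i₀ t i.succ := by
  unfold bs
  apply Real.one_le_exp
  apply mul_nonneg ht
  unfold sw
  rw [if_neg (Fin.succ_ne_zero i)]
  split_ifs <;> norm_num

private theorem lsc_eq (i₀ : Fin m) (t : ℝ) (E : Matrix (Fin (m + 1)) (Fin (m + 1)) ℝ)
    (i j : Fin (m + 1)) :
    |bs i₀ t i * E i j * (bs i₀ t j)⁻¹| = Real.exp (t * (sw i₀ i - sw i₀ j)) * |E i j| := by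
  unfold bs
  rw [abs_mul, abs_mul, abs_of_pos (Real.exp_pos _), ← Real.exp_neg,
    abs_of_pos (Real.exp_pos _), mul_sub, sub_eq_add_neg, Real.exp_add]
  ring

theorem scale (i₀ : Fin m) {E : Matrix (Fin (m + 1)) (Fin (m + 1)) ℝ} (hE : ∀ i j, |E i j| < 1)
    (h : ∃ j, j ≠ i₀.succ ∧ E i₀.succ j ≠ 0) :
    ∃ t : ℝ, 0 ≤ t ∧
      (∀ i j, sw i₀ j < sw i₀ i → |bs i₀ t i * E i j * (bs i₀ t j)⁻¹| ≤ 1) ∧
      (∃ i j, sw i₀ j < sw i₀ i ∧ |bs i₀ t i * E i j * (bs i₀ t j)⁻¹| = 1) ∧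
      (∀ i j, sw i₀ i ≤ sw i₀ j → |bs i₀ t i * E i j * (bs i₀ t j)⁻¹| ≤ |E i j|) := by
  classical
  simp only [lsc_eq]
  obtain ⟨j₀, hj₀, hE₀⟩ := h
  let S : Finset (Fin (m + 1) × Fin (m + 1)) :=
    Finset.univ.filter fun p => sw i₀ p.2 < sw i₀ p.1 ∧ E p.1 p.2 ≠ 0
  have hS : S.Nonempty := by
    refine ⟨(i₀.succ, j₀), ?_⟩
    simp only [S, Finset.mem_filter, Finset.mem_univ, true_and]
    refine ⟨?_, hE₀⟩
    unfold sw
    rw [if_neg (Fin.succ_ne_zero i₀), if_pos rfl, if_neg hj₀]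
    split_ifs <;> norm_num
  obtain ⟨p, hp, hmin⟩ := Finset.exists_min_image S
    (fun p => -Real.log |E p.1 p.2| / (sw i₀ p.1 - sw i₀ p.2)) hS
  simp only [S, Finset.mem_filter, Finset.mem_univ, true_and] at hp hmin
  obtain ⟨hpw, hpE⟩ := hp
  have hlog : Real.log |E p.1 p.2| < 0 := Real.log_neg (abs_pos.2 hpE) (hE _ _)
  have ht : 0 ≤ -Real.log |E p.1 p.2| / (sw i₀ p.1 - sw i₀ p.2) :=
    div_nonneg (by linarith) (by linarith)
  refine ⟨-Real.log |E p.1 p.2| / (sw i₀ p.1 - sw i₀ p.2), ht, ?_, ⟨p.1, p.2, hpw, ?_⟩, ?_⟩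
  · intro i j hij
    by_cases h0 : E i j = 0
    · rw [h0]
      simp
    · have h1 := hmin (i, j) ⟨hij, h0⟩
      simp only at h1
      have hw : 0 < sw i₀ i - sw i₀ j := by linarith
      rw [le_div_iff₀ hw] at h1
      have h2 : Real.exp (-Real.log |E p.1 p.2| / (sw i₀ p.1 - sw i₀ p.2) *
          (sw i₀ i - sw i₀ j)) ≤ Real.exp (-Real.log |E i j|) := Real.exp_le_exp.2 h1
      have h3 : Real.exp (-Real.log |E i j|) * |E i j| = 1 := by
        rw [Real.exp_neg, Real.exp_log (abs_pos.2 h0), inv_mul_cancel₀ (abs_ne_zero.2 h0)]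
      calc _ ≤ Real.exp (-Real.log |E i j|) * |E i j| :=
            mul_le_mul_of_nonneg_right h2 (abs_nonneg _)
        _ = 1 := h3
  · have hw : sw i₀ p.1 - sw i₀ p.2 ≠ 0 := by
      have : 0 < sw i₀ p.1 - sw i₀ p.2 := by linarith
      exact this.ne'
    rw [div_mul_cancel₀ _ hw, Real.exp_neg, Real.exp_log (abs_pos.2 hpE),
      inv_mul_cancel₀ (abs_ne_zero.2 hpE)]
  · intro i j hij
    have h1 : -Real.log |E p.1 p.2| / (sw i₀ p.1 - sw i₀ p.2) * (sw i₀ i - sw i₀ j) ≤ 0 :=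
      mul_nonpos_of_nonneg_of_nonpos ht (by linarith)
    have h2 := Real.exp_le_one_iff.2 h1
    calc _ ≤ 1 * |E i j| := mul_le_mul_of_nonneg_right h2 (abs_nonneg _)
      _ = |E i j| := one_mul _

end Pool.Agent.H81.LW
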