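import Pool.Agent.H81.LW.Lfin
import Pool.Agent.H81.LW.Lmk

/-!
# Main: two numbers (Littlewood's conjecture)

`littlewood_limit_points`: for all real `α, β` either `liminf q ‖q α‖ ‖q β‖ = 0` or the sequence has a nonempty
perfect set of limit points in `(0, C]`, `C > 2/9` arbitrary.  It is `perfect_limit_points` for `m = 2` and `mink_l1` for `d = 3`
(`3! / 3 ^ 3 = 2 / 9`); `fq ![α, β] q = q * (|q α - round (q α)| * |q β - round (q β)|)` by `Fin.prod_univ_two`.
-/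

set_option autoImplicit false

namespace Pool.Agent.H81.LW

open Matrix Filter Topology Pool.Agent.H89.CSD Pool.Agent.H46.RG

variable {m : ℕ}

theorem littlewood_limit_points (α β C : ℝ) (hC : 2 / 9 < C) :
    (∀ ε : ℝ, 0 < ε → ∀ N : ℕ, ∃ q : ℕ, N ≤ q ∧ 0 < q ∧
      (q : ℝ) * |(q : ℝ) * α - round ((q : ℝ) * α)| * |(q : ℝ) * β - round ((q : ℝ) * β)| < ε) ∨
    ∃ K : Set ℝ, Perfect K ∧ K.Nonempty ∧ K ⊆ Set.Ioc 0 C ∧ ∀ v ∈ K,
      MapClusterPt v atTop (fun q : ℕ => (q : ℝ) * |(q : ℝ) * α - round ((q : ℝ) * α)| *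
        |(q : ℝ) * β - round ((q : ℝ) * β)|) := by
  have hf : fq ![α, β] = fun q : ℕ => (q : ℝ) * |(q : ℝ) * α - round ((q : ℝ) * α)| *
      |(q : ℝ) * β - round ((q : ℝ) * β)| := by
    ext q
    simp [fq, Fin.prod_univ_two, mul_assoc]
  have h := perfect_limit_points le_rfl ![α, β] C (fun h hh => by
    refine mink_l1 (by norm_num) ?_ h hh
    have : ((2 + 1 : ℕ).factorial : ℝ) / ((2 + 1 : ℕ) : ℝ) ^ (2 + 1) = 2 / 9 := by
      norm_num [Nat.factorial]
    rw [this]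
    exact hC)
  rw [hf] at h
  exact h

end Pool.Agent.H81.LW
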